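import Mathlib

/-!
# Definitions for the generalised Saxl conjecture in type `B_n` (`𝔤 = so_{2n+1}`)
-/

namespace Pool.Agent.Saxl

open scoped TensorProduct
open MvPolynomial

noncomputable section

/-! ## Nilpotent orbits of `so_{2n+1}` as partitions

A partition is a `YoungDiagram`; its parts are the row lengths
`μ.rowLen 0 ≥ μ.rowLen 1 ≥ …`. -/

/-- The closure (= dominance) order on partitions: `Dom μ ν` means `μ ≤ ν`, i.e. the sum of the `t`
largest parts of `μ` is at most that of `ν`, for every `t`. -/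
def Dom (μ ν : YoungDiagram) : Prop :=
  ∀ t, ∑ i ∈ Finset.range t, μ.rowLen i ≤ ∑ i ∈ Finset.range t, ν.rowLen i

/-- The multiplicity of `p > 0` as a part of `μ`. -/
def mult (μ : YoungDiagram) (p : ℕ) : ℕ := μ.rowLens.count p

/-- `μ` is (the Jordan type of) a nilpotent orbit of `so_{2n+1}`: a partition of `2n+1` in which
every even part has even multiplicity. -/
def IsOrbit (n : ℕ) (μ : YoungDiagram) : Prop :=
  μ.card = 2 * n + 1 ∧ ∀ p, 0 < p → Even p → Even (mult μ p)

/-- The orbit `μ` is solvable.  The centraliser of an `sl₂`-triple of type `μ` in `so_{2n+1}` is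
`⊕_{p odd} so(mult μ p) ⊕ ⊕_{p even} sp(mult μ p)`, which is solvable iff no even part occurs and
every odd part has multiplicity at most two. -/
def IsSolvable (n : ℕ) (μ : YoungDiagram) : Prop :=
  IsOrbit n μ ∧ ∀ p, 0 < p → (Even p → mult μ p = 0) ∧ (Odd p → mult μ p ≤ 2)

/-- `O` is the minimal solvable orbit. -/
def IsMinSolvable (n : ℕ) (O : YoungDiagram) : Prop :=
  IsSolvable n O ∧ ∀ μ, IsSolvable n μ → Dom O μ

/-- `D = d(O)` for the Lusztig-Spaltenstein duality of `so_{2n+1}`: `D` is the `B`-collapse of the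
transposed partition of `O`, i.e. the largest orbit partition which is `≤` the transpose. -/
def IsDual (n : ℕ) (O D : YoungDiagram) : Prop :=
  IsOrbit n D ∧ Dom D O.transpose ∧ ∀ μ, IsOrbit n μ → Dom μ O.transpose → Dom μ D

/-! ## Bipartitions, symbols, families and the Springer correspondence -/

/-- The set of beta numbers `{α_{l-i} + i : 0 ≤ i < l}` (`α_1 ≥ α_2 ≥ …` the parts of `α`) with
`l` elements. -/
def beta (l : ℕ) (α : YoungDiagram) : Finset ℕ :=
  (Finset.range l).image fun i => α.rowLen (l - 1 - i) + i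

/-- Bipartitions of `n`. -/
abbrev Bip (n : ℕ) : Type := {p : YoungDiagram × YoungDiagram // p.1.card + p.2.card = n}

/-- Two bipartitions of `n` are in the same (Lusztig) family of `W(B_n)` iff their symbols (of
defect one, top row with `n+1` entries, bottom row with `n` entries) have the same entries, with
multiplicities. -/
def SameFamily {n : ℕ} (p q : Bip n) : Prop :=
  (beta (n + 1) p.1.1).val + (beta n p.1.2).val = (beta (n + 1) q.1.1).val + (beta n q.1.2).val

/-- The bipartition `p` is special: its symbol `(a_0 < … < a_n ; b_0 < … < b_{n-1})` satisfies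
`a_0 ≤ b_0 ≤ a_1 ≤ b_1 ≤ … ≤ a_n`. -/
def IsSpecial {n : ℕ} (p : Bip n) : Prop :=
  ∀ i < n, p.1.1.rowLen (n - i) + i ≤ p.1.2.rowLen (n - 1 - i) + i ∧
    p.1.2.rowLen (n - 1 - i) + i ≤ p.1.1.rowLen (n - (i + 1)) + (i + 1)

/-- The Springer correspondence of `so_{2n+1}` (for the trivial local system), in the
normalisation in which the regular orbit gives the trivial character: the
bipartition `p = (ξ, η)` is attached to the orbit `μ` iff the top row of the symbol of `p` consists
of the `(s-1)/2`, `s` odd, and the bottom row of the `s/2`, `s` even, where `s` runs through the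
`2n+1` numbers `μ_{2n+1} < μ_{2n} + 1 < … < μ_1 + 2n`. -/
def IsSpringer {n : ℕ} (μ : YoungDiagram) (p : Bip n) : Prop :=
  (∀ x, x ∈ beta (n + 1) p.1.1 ↔ 2 * x + 1 ∈ beta (2 * n + 1) μ) ∧
    (∀ x, x ∈ beta n p.1.2 ↔ 2 * x ∈ beta (2 * n + 1) μ)

/-- `p` belongs to a family `F` with `O ≥ O_F ≥ D`. -/
def InSigma {n : ℕ} (O D : YoungDiagram) (p : Bip n) : Prop :=
  ∃ (μ : YoungDiagram) (s : Bip n), IsOrbit n μ ∧ Dom D μ ∧ Dom μ O ∧ IsSpringer μ s ∧
    IsSpecial s ∧ SameFamily p s

/-! ## The Weyl group and its irreducible representations -/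

/-- The Weyl group `W(B_n)`: signed permutations `(ε, σ)`, `e_i ↦ ε_{σ i} e_{σ i}`. -/
def W (n : ℕ) : Type :=
  (Fin n → ℤˣ) ⋊[mulAutArrow (G := Equiv.Perm (Fin n)) (A := Fin n) (M := ℤˣ)]
    Equiv.Perm (Fin n)

instance (n : ℕ) : Group (W n) :=
  (inferInstance : Group ((Fin n → ℤˣ) ⋊[mulAutArrow (G := Equiv.Perm (Fin n)) (A := Fin n)
    (M := ℤˣ)] Equiv.Perm (Fin n)))

theorem W_mul_left {n : ℕ} (g h : W n) (i : Fin n) :
    (g * h).left i = g.left i * h.left (g.right.symm i) := rfl

theorem W_mul_right {n : ℕ} (g h : W n) (i : Fin n) : (g * h).right i = g.right (h.right i) := rfl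

theorem W_one_left {n : ℕ} (i : Fin n) : (1 : W n).left i = 1 := rfl

theorem W_one_right {n : ℕ} (i : Fin n) : (1 : W n).right i = i := rfl

/-- The action of `W(B_n)` on polynomials in `x_1, …, x_n`: `(ε, σ)` sends `x_i` to
`ε_{σ i} x_{σ i}`. -/
def polyRep (n : ℕ) : Representation ℂ (W n) (MvPolynomial (Fin n) ℂ) where
  toFun g := (MvPolynomial.aeval (R := ℂ) fun i =>
    MvPolynomial.C (((g.left (g.right i) : ℤ) : ℂ)) * MvPolynomial.X (g.right i)).toLinearMap
  map_one' := by
    ext
    simp [W_one_left, W_one_right]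
  map_mul' g h := by
    apply LinearMap.ext
    intro f
    simp only [AlgHom.toLinearMap_apply, Module.End.mul_apply]
    rw [← AlgHom.comp_apply]
    congr 1
    apply MvPolynomial.algHom_ext
    intro i
    simp only [MvPolynomial.aeval_X, AlgHom.comp_apply, map_mul, MvPolynomial.algHom_C,
      W_mul_left, W_mul_right, Equiv.symm_apply_apply, Units.val_mul, Int.cast_mul,
      MvPolynomial.algebraMap_eq]
    ring

/-- The linear character `δ` of `W(B_n)`: `(ε, σ) ↦ ∏ ε_i` (trivial on permutations, `-1` on the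
reflections `x_i ↦ -x_i`). -/
def delta (n : ℕ) : Representation ℂ (W n) ℂ where
  toFun g := (∏ i, ((g.left i : ℤ) : ℂ)) • LinearMap.id
  map_one' := by
    ext
    simp [W_one_left]
  map_mul' g h := by
    have h1 : ∏ x, ((h.left (g.right.symm x) : ℤ) : ℂ) = ∏ x, ((h.left x : ℤ) : ℂ) :=
      Equiv.prod_comp (g.right.symm) fun x => ((h.left x : ℤ) : ℂ)
    ext
    simp only [W_mul_left]
    simp [Finset.prod_mul_distrib, h1, mul_comm]

/-- A bitableau of shape `p`: a bijection from the cells of the two diagrams to `Fin n`. -/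
abbrev Tab {n : ℕ} (p : Bip n) : Type := ({c // c ∈ p.1.1.cells} ⊕ {c // c ∈ p.1.2.cells}) ≃ Fin n

/-- The exponent of `x_i` in the monomial of the bitableau `T`: `2r` if `i` is in row `r` of the
first tableau and `2r+1` if `i` is in row `r` of the second one (rows are numbered from `0`). -/
def expo {n : ℕ} {p : Bip n} (T : Tab p) (i : Fin n) : ℕ :=
  Sum.elim (fun c => 2 * c.1.1) (fun c => 2 * c.1.1 + 1) (T.symm i)

/-- The column containing `i`: `inl c` for column `c` of the first tableau and `inr c` for column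
`c` of the second one. -/
def colOf {n : ℕ} {p : Bip n} (T : Tab p) (i : Fin n) : ℕ ⊕ ℕ :=
  Sum.map (fun c => c.1.2) (fun c => c.1.2) (T.symm i)

/-- The Specht polynomial of the bitableau `T`: the antisymmetrisation of the monomial
`∏ x_i ^ expo T i` under the column stabiliser of `T`.  It equals
`∏_{columns of T} ∏_{i above j} (x_j² - x_i²)` times the product of the `x_i`, `i` in the second
tableau. -/
def spechtPoly {n : ℕ} {p : Bip n} (T : Tab p) : MvPolynomial (Fin n) ℂ :=
  ∑ σ : Equiv.Perm (Fin n) with ∀ i, colOf T (σ i) = colOf T i,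
    ((Equiv.Perm.sign σ : ℤ) : ℂ) •
      MvPolynomial.rename σ (∏ i, (MvPolynomial.X i : MvPolynomial (Fin n) ℂ) ^ expo T i)

/-! ## Coefficients, and the Specht modules -/

variable {n : ℕ}

/-- exponent vector as a finitely supported function -/
def ex (a : Fin n → ℕ) : Fin n →₀ ℕ := Finsupp.equivFunOnFinite.symm a

@[simp] theorem ex_apply (a : Fin n → ℕ) (i : Fin n) : ex a i = a i := rfl

theorem ex_inj {a b : Fin n → ℕ} : ex a = ex b ↔ a = b :=
  Finsupp.equivFunOnFinite.symm.injective.eq_iff

theorem ex_coe (u : Fin n →₀ ℕ) : ex (fun i => u i) = u := by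
  ext i; rfl

/-- coefficient functional -/
def cf (a : Fin n → ℕ) : MvPolynomial (Fin n) ℂ →ₗ[ℂ] ℂ := MvPolynomial.lcoeff ℂ (ex a)

theorem cf_apply (a : Fin n → ℕ) (f : MvPolynomial (Fin n) ℂ) : cf a f = coeff (ex a) f := rfl

theorem cf_monomial (a b : Fin n → ℕ) (c : ℂ) :
    cf a (monomial (ex b) c) = if a = b then c else 0 := by
  rw [cf_apply, coeff_monomial]
  by_cases h : a = b
  · simp [h]
  · rw [if_neg, if_neg h]
    rw [ex_inj]
    exact fun h' => h h'.symm

theorem monomial_ex (a : Fin n → ℕ) (c : ℂ) :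
    monomial (ex a) c = C c * ∏ i, (X i : MvPolynomial (Fin n) ℂ) ^ a i := by
  rw [monomial_eq, Finsupp.prod_fintype]
  · rfl
  · intro i; exact pow_zero _

theorem polyRep_monomial (g : W n) (a : Fin n → ℕ) (c : ℂ) :
    polyRep n g (monomial (ex a) c) =
      monomial (ex (a ∘ g.right.symm)) (c * ∏ i, ((g.left (g.right i) : ℤ) : ℂ) ^ a i) := by
  change (MvPolynomial.aeval (R := ℂ) _) _ = _
  rw [monomial_ex, monomial_ex, map_mul, map_prod]
  simp only [map_pow, aeval_X, MvPolynomial.algHom_C, mul_pow, Finset.prod_mul_distrib,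
    MvPolynomial.algebraMap_eq, map_mul, map_prod, mul_assoc]
  congr 2
  rw [← Equiv.prod_comp g.right fun i => (X i : MvPolynomial (Fin n) ℂ) ^ (a ∘ g.right.symm) i]
  simp

theorem cf_polyRep (g : W n) (a : Fin n → ℕ) (f : MvPolynomial (Fin n) ℂ) :
    cf a (polyRep n g f) = (∏ i, ((g.left i : ℤ) : ℂ) ^ a i) * cf (a ∘ g.right) f := by
  induction f using MvPolynomial.induction_on' with
  | monomial u c =>
    rw [← ex_coe u, polyRep_monomial, cf_monomial, cf_monomial]
    have hiff : a = (fun i => u i) ∘ g.right.symm ↔ a ∘ g.right = fun i => u i := by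
      constructor
      · rintro h
        rw [h]; ext i; simp
      · intro h
        rw [← h]; ext i; simp
    by_cases h : a ∘ g.right = fun i => u i
    · rw [if_pos (hiff.2 h), if_pos h, mul_comm]
      congr 1
      rw [← Equiv.prod_comp g.right fun i => ((g.left i : ℤ) : ℂ) ^ a i]
      refine Finset.prod_congr rfl fun i _ => ?_
      rw [← congrFun h i]; rfl
    · rw [if_neg (fun h' => h (hiff.1 h')), if_neg h, mul_zero]
  | add p q hp hq =>
    rw [map_add, map_add, map_add, hp, hq, mul_add]

theorem rename_prod (σ : Equiv.Perm (Fin n)) (e : Fin n → ℕ) :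
    MvPolynomial.rename σ (∏ i, (X i : MvPolynomial (Fin n) ℂ) ^ e i) =
      monomial (ex (e ∘ σ.symm)) 1 := by
  rw [monomial_ex, map_prod]
  simp only [map_pow, rename_X, map_one, one_mul]
  rw [← Equiv.prod_comp σ fun i => (X i : MvPolynomial (Fin n) ℂ) ^ (e ∘ σ.symm) i]
  simp

/-- column stabiliser -/
def CS {p : Bip n} (T : Tab p) : Finset (Equiv.Perm (Fin n)) :=
  Finset.univ.filter fun σ => ∀ i, colOf T (σ i) = colOf T i

theorem mem_CS {p : Bip n} {T : Tab p} {σ : Equiv.Perm (Fin n)} :
    σ ∈ CS T ↔ ∀ i, colOf T (σ i) = colOf T i := by simp [CS]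

theorem spechtPoly_eq {p : Bip n} (T : Tab p) :
    spechtPoly T = ∑ σ ∈ CS T, ((Equiv.Perm.sign σ : ℤ) : ℂ) •
      (monomial (ex (expo T ∘ σ.symm)) 1 : MvPolynomial (Fin n) ℂ) := by
  unfold spechtPoly CS
  refine Finset.sum_congr rfl fun σ _ => ?_
  rw [rename_prod]

theorem cf_spechtPoly {p : Bip n} (T : Tab p) (a : Fin n → ℕ) :
    cf a (spechtPoly T) = ∑ σ ∈ CS T, ((Equiv.Perm.sign σ : ℤ) : ℂ) *
      (if a ∘ σ = expo T then 1 else 0) := by
  rw [spechtPoly_eq, map_sum]
  refine Finset.sum_congr rfl fun σ _ => ?_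
  rw [map_smul, cf_monomial, smul_eq_mul]
  congr 1
  have : a = expo T ∘ σ.symm ↔ a ∘ σ = expo T := by
    constructor
    · rintro rfl; ext i; simp
    · rintro h; rw [← h]; ext i; simp
  simp only [this]

/-- the bitableau with entries permuted by `σ` -/
def permTab {p : Bip n} (T : Tab p) (σ : Equiv.Perm (Fin n)) : Tab p := T.trans σ

theorem expo_permTab {p : Bip n} (T : Tab p) (σ : Equiv.Perm (Fin n)) (i : Fin n) :
    expo (permTab T σ) i = expo T (σ.symm i) := rfl

theorem colOf_permTab {p : Bip n} (T : Tab p) (σ : Equiv.Perm (Fin n)) (i : Fin n) :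
    colOf (permTab T σ) i = colOf T (σ.symm i) := rfl

/-- the parity of the exponent depends only on the column -/
theorem expo_parity {p : Bip n} (T : Tab p) {i j : Fin n} (h : colOf T i = colOf T j) :
    expo T i % 2 = expo T j % 2 := by
  unfold colOf at h
  unfold expo
  rcases hi : T.symm i with c | c <;> rcases hj : T.symm j with d | d <;> rw [hi, hj] at h <;>
    simp at h ⊢

theorem sq_sign (u : ℤˣ) : ((u : ℤ) : ℂ) ^ 2 = 1 := by
  rcases Int.units_eq_one_or u with h | h <;> simp [h]

theorem sign_pow (u : ℤˣ) {a b : ℕ} (h : a % 2 = b % 2) :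
    ((u : ℤ) : ℂ) ^ a = ((u : ℤ) : ℂ) ^ b := by
  rw [← Nat.div_add_mod a 2, ← Nat.div_add_mod b 2, pow_add, pow_add, pow_mul, pow_mul, sq_sign,
    one_pow, one_pow, h]

theorem polyRep_spechtPoly {p : Bip n} (g : W n) (T : Tab p) :
    polyRep n g (spechtPoly T) =
      (∏ i, ((g.left i : ℤ) : ℂ) ^ expo (permTab T g.right) i) • spechtPoly (permTab T g.right) := by
  ext m
  rw [← ex_coe m, ← cf_apply, ← cf_apply, map_smul, smul_eq_mul, cf_polyRep, cf_spechtPoly,
    cf_spechtPoly, Finset.mul_sum, Finset.mul_sum]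
  refine Finset.sum_bij (fun σ _ => g.right * σ * g.right⁻¹) ?_ ?_ ?_ ?_
  · intro σ hσ
    rw [mem_CS] at hσ ⊢
    intro i
    rw [colOf_permTab, colOf_permTab]
    have := hσ (g.right.symm i)
    simpa [Equiv.Perm.mul_apply] using this
  · intro σ _ τ _ h
    simpa using h
  · intro τ hτ
    refine ⟨g.right⁻¹ * τ * g.right, ?_, by group⟩
    rw [mem_CS] at hτ ⊢
    intro i
    have := hτ (g.right i)
    rw [colOf_permTab, colOf_permTab] at this
    simpa [Equiv.Perm.mul_apply] using this
  · intro σ hσ
    have hs : Equiv.Perm.sign (g.right * σ * g.right⁻¹) = Equiv.Perm.sign σ := by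
      rw [map_mul, mul_comm, ← map_mul, ← mul_assoc, inv_mul_cancel, one_mul]
    rw [hs]
    have hiff : ((fun i => m i) ∘ g.right) ∘ σ = expo T ↔
        (fun i => m i) ∘ (g.right * σ * g.right⁻¹ : Equiv.Perm (Fin n)) =
          expo (permTab T g.right) := by
      constructor
      · intro h
        ext i
        rw [expo_permTab, ← h]; simp
      · intro h
        ext i
        have := congrFun h (g.right i)
        rw [expo_permTab] at this
        simpa using this
    by_cases h : ((fun i => m i) ∘ g.right) ∘ σ = expo T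
    · rw [if_pos h, if_pos (hiff.1 h)]
      congr 1
      refine Finset.prod_congr rfl fun i _ => ?_
      apply sign_pow
      have h2 := congrFun (hiff.1 h) ((g.right * σ * g.right⁻¹ : Equiv.Perm (Fin n)).symm i)
      simp only [Function.comp_apply, Equiv.apply_symm_apply] at h2
      rw [h2]
      apply expo_parity
      rw [mem_CS] at hσ
      rw [colOf_permTab, colOf_permTab]
      have := hσ (σ.symm (g.right.symm i))
      rw [Equiv.apply_symm_apply] at this
      rw [this]
      change colOf T (g.right.symm (g.right (σ.symm (g.right.symm i)))) = _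
      rw [Equiv.symm_apply_apply]
    · rw [if_neg h, if_neg (fun h' => h (hiff.2 h'))]
      ring


/-- The irreducible representation `S^{(α,β)}` of `W(B_n)` attached to the bipartition `p = (α,β)`
(Specht module): the span of the Specht polynomials of all bitableaux of shape `p`.  In this
labelling `((n),∅)` is the trivial character, `(∅,(1^n))` the sign character and `((n-1),(1))` the
reflection representation.  (Irreducibility and pairwise non-isomorphism are proved in
`spe_irreducible` and `spe_hom_zero` in `Irr2.lean`.) -/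
def spe (p : Bip n) : Subrepresentation (polyRep n) where
  toSubmodule := Submodule.span ℂ (Set.range fun T : Tab p => spechtPoly T)
  apply_mem_toSubmodule g v hv := by
    induction hv using Submodule.span_induction with
    | mem x hx =>
      obtain ⟨T, rfl⟩ := hx
      change polyRep n g (spechtPoly T) ∈ _
      rw [polyRep_spechtPoly]
      exact Submodule.smul_mem _ _ (Submodule.subset_span ⟨_, rfl⟩)
    | zero => rw [map_zero]; exact Submodule.zero_mem _
    | add x y _ _ hx hy => rw [map_add]; exact Submodule.add_mem _ hx hy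
    | smul a x _ hx => rw [map_smul]; exact Submodule.smul_mem _ _ hx

/-- The underlying vector space of `Σ`: the direct sum of the spaces `S^p`, `p` in a family `F`
with `O ≥ O_F ≥ D`. -/
def SigV (n : ℕ) (O D : YoungDiagram) : Type :=
  DirectSum {p : Bip n // InSigma O D p} fun p => (spe p.1).toSubmodule

instance (n : ℕ) (O D : YoungDiagram) : AddCommGroup (SigV n O D) :=
  (inferInstance : AddCommGroup (DirectSum {p : Bip n // InSigma O D p} fun p =>
    (spe p.1).toSubmodule))

instance (n : ℕ) (O D : YoungDiagram) : Module ℂ (SigV n O D) :=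
  (inferInstance : Module ℂ (DirectSum {p : Bip n // InSigma O D p} fun p =>
    (spe p.1).toSubmodule))

/-- The character `Σ`: the direct sum of all the irreducible representations `S^p`, `p` in a
family `F` with `O ≥ O_F ≥ D`. -/
def Sig (n : ℕ) (O D : YoungDiagram) : Representation ℂ (W n) (SigV n O D) :=
  Representation.directSum fun p : {p : Bip n // InSigma O D p} => (spe p.1).toRepresentation

/-- `σ` is contained in `ρ`: there is a non-zero intertwining map `σ → ρ`. -/
def Contains {n : ℕ} {V U : Type} [AddCommGroup V] [Module ℂ V] [AddCommGroup U] [Module ℂ U]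
    (ρ : Representation ℂ (W n) V) (σ : Representation ℂ (W n) U) : Prop :=
  ∃ f : Representation.IntertwiningMap σ ρ, f ≠ 0

end

end Pool.Agent.Saxl
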