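import Mathlib
import Pool.Agent.Helper83.Saxl.Defs

namespace Pool.Agent.Saxl

open scoped TensorProduct
open MvPolynomial

noncomputable section

variable {n : ℕ}

/-- antisymmetrised coefficient functional -/
def LT {p : Bip n} (T : Tab p) : MvPolynomial (Fin n) ℂ →ₗ[ℂ] ℂ :=
  ∑ σ ∈ CS T, ((Equiv.Perm.sign σ : ℤ) : ℂ) • cf (expo T ∘ σ.symm)

/-- Hermitian pairing -/
theorem LT_eq_sum {p : Bip n} (T : Tab p) (u : MvPolynomial (Fin n) ℂ) :
    LT T u = ∑ m ∈ u.support, (starRingEnd ℂ) (coeff m (spechtPoly T)) * coeff m u := by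
  have h1 : ∀ m ∈ u.support, (starRingEnd ℂ) (coeff m (spechtPoly T)) * coeff m u =
      ∑ σ ∈ CS T, ((Equiv.Perm.sign σ : ℤ) : ℂ) *
        (if (fun i => m i) = expo T ∘ σ.symm then coeff m u else 0) := by
    intro m _
    have h2 : coeff m (spechtPoly T) = cf (fun i => m i) (spechtPoly T) := by
      rw [cf_apply, ex_coe]
    rw [h2, cf_spechtPoly, map_sum, Finset.sum_mul]
    refine Finset.sum_congr rfl fun σ _ => ?_
    have : (fun i => m i) = expo T ∘ σ.symm ↔ (fun i => m i) ∘ σ = expo T := by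
      constructor
      · intro h; rw [h]; ext i; simp
      · rintro h; rw [← h]; ext i; simp
    simp only [this]
    split_ifs <;> simp
  rw [Finset.sum_congr rfl h1, Finset.sum_comm, LT, LinearMap.sum_apply]
  refine Finset.sum_congr rfl fun σ _ => ?_
  rw [LinearMap.smul_apply, smul_eq_mul, ← Finset.mul_sum]
  congr 1
  by_cases h : ex (expo T ∘ σ.symm) ∈ u.support
  · rw [Finset.sum_eq_single_of_mem _ h]
    · rw [if_pos, cf_apply]
      rfl
    · intro m _ hm
      rw [if_neg]
      intro h'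
      exact hm (by rw [← h', ex_coe])
  · rw [Finset.sum_eq_zero]
    · rw [cf_apply]; simpa using h
    · intro m hm
      rw [if_neg]
      intro h'
      exact h (by rw [← h', ex_coe]; exact hm)

theorem exists_LT_ne_zero {p : Bip n} {u : MvPolynomial (Fin n) ℂ}
    (hu : u ∈ (spe p).toSubmodule) (h0 : u ≠ 0) : ∃ T : Tab p, LT T u ≠ 0 := by
  by_contra hcon
  push Not at hcon
  have key : ∀ f ∈ (spe p).toSubmodule,
      ∑ m ∈ u.support, (starRingEnd ℂ) (coeff m f) * coeff m u = 0 := by
    intro f hf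
    induction hf using Submodule.span_induction with
    | mem x hx =>
      obtain ⟨T, rfl⟩ := hx
      rw [← LT_eq_sum]; exact hcon T
    | zero => simp
    | add x y _ _ hx hy =>
      simp only [coeff_add, map_add, add_mul, Finset.sum_add_distrib, hx, hy, add_zero]
    | smul a x _ hx =>
      simp only [coeff_smul, smul_eq_mul, map_mul, mul_assoc, ← Finset.mul_sum, hx, mul_zero]
  have h1 := key u hu
  obtain ⟨m, hm⟩ := MvPolynomial.support_nonempty.2 h0
  have h2 : ∑ m ∈ u.support, ‖coeff m u‖ ^ 2 = 0 := by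
    have h3 : ((∑ m ∈ u.support, ‖coeff m u‖ ^ 2 : ℝ) : ℂ) = 0 := by
      rw [← h1]
      push_cast
      refine Finset.sum_congr rfl fun m _ => ?_
      rw [mul_comm, Complex.mul_conj, Complex.normSq_eq_norm_sq]
      push_cast; rfl
    exact_mod_cast h3
  have h4 := (Finset.sum_eq_zero_iff_of_nonneg (fun m _ => by positivity)).1 h2 m hm
  rw [mem_support_iff] at hm
  apply hm
  simpa using h4

end

end Pool.Agent.Saxl
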