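import Mathlib
import Pool.Agent.Helper83.Saxl.Alg

namespace Pool.Agent.Saxl

open scoped TensorProduct
open MvPolynomial

noncomputable section

variable {n : ℕ}

/-- the exponent vector `b` has content `q` -/
def HasContent (q : Bip n) (b : Fin n → ℕ) : Prop :=
  ∀ r, (Finset.univ.filter fun i => b i = 2 * r).card = q.1.1.rowLen r ∧
    (Finset.univ.filter fun i => b i = 2 * r + 1).card = q.1.2.rowLen r

theorem hasContent_expo {q : Bip n} (T : Tab q) : HasContent q (expo T) := by
  intro r
  constructor
  · rw [YoungDiagram.rowLen_eq_card]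
    symm
    refine Finset.card_bij (fun c hc => T (Sum.inl ⟨c, ?_⟩)) ?_ ?_ ?_
    · rw [YoungDiagram.mem_row_iff] at hc
      exact hc.1
    · intro c hc
      rw [YoungDiagram.mem_row_iff] at hc
      rw [Finset.mem_filter]
      refine ⟨Finset.mem_univ _, ?_⟩
      simp [expo, hc.2]
    · intro c hc d hd h
      have := T.injective h
      simpa using this
    · intro i hi
      rw [Finset.mem_filter] at hi
      rcases h : T.symm i with c | c
      · refine ⟨c.1, ?_, ?_⟩
        · rw [YoungDiagram.mem_row_iff]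
          refine ⟨c.2, ?_⟩
          have := hi.2
          simp only [expo, h, Sum.elim_inl] at this
          omega
        · rw [← h]; simp
      · have := hi.2
        simp only [expo, h, Sum.elim_inr] at this
        omega
  · rw [YoungDiagram.rowLen_eq_card]
    symm
    refine Finset.card_bij (fun c hc => T (Sum.inr ⟨c, ?_⟩)) ?_ ?_ ?_
    · rw [YoungDiagram.mem_row_iff] at hc
      exact hc.1
    · intro c hc
      rw [YoungDiagram.mem_row_iff] at hc
      rw [Finset.mem_filter]
      refine ⟨Finset.mem_univ _, ?_⟩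
      simp [expo, hc.2]
    · intro c hc d hd h
      have := T.injective h
      simpa using this
    · intro i hi
      rw [Finset.mem_filter] at hi
      rcases h : T.symm i with c | c
      · have := hi.2
        simp only [expo, h, Sum.elim_inl] at this
        omega
      · refine ⟨c.1, ?_, ?_⟩
        · rw [YoungDiagram.mem_row_iff]
          refine ⟨c.2, ?_⟩
          have := hi.2
          simp only [expo, h, Sum.elim_inr] at this
          omega
        · rw [← h]; simp

theorem hasContent_comp {q : Bip n} {b : Fin n → ℕ} (σ : Equiv.Perm (Fin n))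
    (h : HasContent q (b ∘ σ)) : HasContent q b := by
  intro r
  obtain ⟨h1, h2⟩ := h r
  rw [← h1, ← h2]
  have key : ∀ x, (Finset.univ.filter fun i => b i = x).card =
      (Finset.univ.filter fun i => (b ∘ σ) i = x).card := by
    intro x
    symm
    refine Finset.card_bij (fun i _ => σ i) ?_ ?_ ?_
    · intro i hi; simpa using hi
    · intro i _ j _ h; exact σ.injective h
    · intro i hi
      refine ⟨σ.symm i, ?_, by simp⟩
      simpa using hi
  exact ⟨key _, key _⟩

theorem hasContent_of_cf {q : Bip n} {u : MvPolynomial (Fin n) ℂ} (hu : u ∈ (spe q).toSubmodule)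
    (b : Fin n → ℕ) (hb : cf b u ≠ 0) : HasContent q b := by
  by_contra hcon
  apply hb
  induction hu using Submodule.span_induction with
  | mem x hx =>
    obtain ⟨T, rfl⟩ := hx
    change cf b (spechtPoly T) = 0
    rw [cf_spechtPoly]
    refine Finset.sum_eq_zero fun σ _ => ?_
    rw [if_neg, mul_zero]
    intro h
    exact hcon (hasContent_comp σ (h ▸ hasContent_expo T))
  | zero => exact map_zero _
  | add x y _ _ hx hy =>
    rw [map_add]
    by_cases h1 : cf b x = 0
    · by_cases h2 : cf b y = 0
      · rw [h1, h2, add_zero]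
      · exact absurd (hy h2) h2
    · exact absurd (hx h1) h1
  | smul a x _ hx =>
    rw [map_smul]
    by_cases h1 : cf b x = 0
    · rw [h1, smul_zero]
    · exact absurd (hx h1) h1

/-- contraction of the second factor with the coefficient functional of `b` -/
def FF (p q : Bip n) (b : Fin n → ℕ) :
    ((spe p).toSubmodule ⊗[ℂ] (spe q).toSubmodule) →ₗ[ℂ] (spe p).toSubmodule :=
  (TensorProduct.rid ℂ _).toLinearMap ∘ₗ
    LinearMap.lTensor _ (cf b ∘ₗ (spe q).toSubmodule.subtype)

theorem FF_tmul (p q : Bip n) (b : Fin n → ℕ) (x : (spe p).toSubmodule)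
    (y : (spe q).toSubmodule) : FF p q b (x ⊗ₜ y) = cf b y.1 • x := by
  simp [FF]

theorem eq_zero_of_FF (p q : Bip n) (w : (spe p).toSubmodule ⊗[ℂ] (spe q).toSubmodule)
    (h : ∀ b, FF p q b w = 0) : w = 0 := by
  have hinj : Function.Injective
      (LinearMap.lTensor (spe p).toSubmodule (spe q).toSubmodule.subtype) :=
    Module.Flat.lTensor_preserves_injective_linearMap _ (Submodule.injective_subtype _)
  apply hinj
  rw [map_zero]
  let B := Module.Basis.ofVectorSpace ℂ (spe p).toSubmodule
  let M := MvPolynomial.basisMonomials (Fin n) ℂ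
  apply (B.tensorProduct M).ext_elem
  rintro ⟨i, m⟩
  rw [map_zero, Finsupp.zero_apply]
  have key : ∀ w' : (spe p).toSubmodule ⊗[ℂ] (spe q).toSubmodule,
      (B.tensorProduct M).repr
        (LinearMap.lTensor (spe p).toSubmodule (spe q).toSubmodule.subtype w') (i, m) =
      B.repr (FF p q (fun i => m i) w') i := by
    intro w'
    induction w' using TensorProduct.induction_on with
    | zero => simp
    | tmul x y =>
      rw [LinearMap.lTensor_tmul, Module.Basis.tensorProduct_repr_tmul_apply, FF_tmul, map_smul,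
        Finsupp.smul_apply]
      congr 1
      rw [cf_apply, ex_coe]
      rfl
    | add x y hx hy =>
      rw [map_add, map_add, map_add, map_add, Finsupp.add_apply, Finsupp.add_apply, hx, hy]
  rw [key, h, map_zero, Finsupp.zero_apply]

/-- coefficient of `x^a ⊗ x^b` -/
def cc (p q : Bip n) (a b : Fin n → ℕ) :
    ((spe p).toSubmodule ⊗[ℂ] (spe q).toSubmodule) →ₗ[ℂ] ℂ :=
  cf a ∘ₗ (spe p).toSubmodule.subtype ∘ₗ FF p q b

theorem cc_tmul (p q : Bip n) (a b : Fin n → ℕ) (x : (spe p).toSubmodule)
    (y : (spe q).toSubmodule) : cc p q a b (x ⊗ₜ y) = cf a x.1 * cf b y.1 := by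
  simp [cc, FF_tmul, mul_comm]

theorem cc_act (p q : Bip n) (g : W n) (a b : Fin n → ℕ)
    (w : (spe p).toSubmodule ⊗[ℂ] (spe q).toSubmodule) :
    cc p q a b (((spe p).toRepresentation.tprod (spe q).toRepresentation) g w) =
      (∏ i, ((g.left i : ℤ) : ℂ) ^ (a i + b i)) * cc p q (a ∘ g.right) (b ∘ g.right) w := by
  induction w using TensorProduct.induction_on with
  | zero => simp
  | tmul x y =>
    rw [Representation.tprod_apply, TensorProduct.map_tmul, cc_tmul, cc_tmul]
    have h1 : (((spe p).toRepresentation g x : (spe p).toSubmodule) : MvPolynomial (Fin n) ℂ) =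
      polyRep n g x.1 := rfl
    have h2 : (((spe q).toRepresentation g y : (spe q).toSubmodule) : MvPolynomial (Fin n) ℂ) =
      polyRep n g y.1 := rfl
    rw [h1, h2, cf_polyRep, cf_polyRep]
    simp only [pow_add, Finset.prod_mul_distrib]
    ring
  | add x y hx hy => rw [map_add, map_add, map_add, hx, hy, mul_add]

theorem cc_content (p q : Bip n) (a b : Fin n → ℕ)
    (w : (spe p).toSubmodule ⊗[ℂ] (spe q).toSubmodule) (h : cc p q a b w ≠ 0) :
    HasContent q b := by
  by_contra hcon
  apply h
  induction w using TensorProduct.induction_on with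
  | zero => simp
  | tmul x y =>
    rw [cc_tmul]
    by_cases h1 : cf b y.1 = 0
    · rw [h1, mul_zero]
    · exact absurd (hasContent_of_cf y.2 b h1) hcon
  | add x y hx hy =>
    rw [map_add]
    by_cases h1 : cc p q a b x = 0
    · by_cases h2 : cc p q a b y = 0
      · rw [h1, h2, add_zero]
      · exact absurd (hy h2) h2
    · exact absurd (hx h1) h1

/-- The main step. -/
theorem main_step (p q : Bip n) (w : (spe p).toSubmodule ⊗[ℂ] (spe q).toSubmodule)
    (hw : ∀ g : W n, ((spe p).toRepresentation.tprod (spe q).toRepresentation) g w =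
      (∏ i, ((g.left i : ℤ) : ℂ)) • w) (h0 : w ≠ 0) :
    ∃ (T : Tab p) (b : Fin n → ℕ), HasContent q b ∧ (∀ i, Odd (expo T i + b i)) ∧
      ∀ i j, colOf T i = colOf T j → b i = b j → i = j := by
  have h1 : ∃ b, FF p q b w ≠ 0 := by
    by_contra hcon
    push Not at hcon
    exact h0 (eq_zero_of_FF p q w hcon)
  obtain ⟨b0, hb0⟩ := h1
  have h2 : ((FF p q b0 w : (spe p).toSubmodule) : MvPolynomial (Fin n) ℂ) ≠ 0 := by
    intro h
    exact hb0 (Subtype.ext h)
  obtain ⟨T, hT⟩ := exists_LT_ne_zero (FF p q b0 w).2 h2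
  have hperm : ∀ (σ : Equiv.Perm (Fin n)) (a b : Fin n → ℕ),
      cc p q (a ∘ σ) (b ∘ σ) w = cc p q a b w := by
    intro σ a b
    have := cc_act p q (SemidirectProduct.inr σ) a b w
    rw [hw] at this
    simpa using this.symm
  have h3 : LT T ((FF p q b0 w : (spe p).toSubmodule) : MvPolynomial (Fin n) ℂ) =
      ∑ σ ∈ CS T, ((Equiv.Perm.sign σ : ℤ) : ℂ) * cc p q (expo T) (b0 ∘ σ) w := by
    rw [LT, LinearMap.sum_apply]
    refine Finset.sum_congr rfl fun σ _ => ?_
    rw [LinearMap.smul_apply, smul_eq_mul]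
    congr 1
    rw [← hperm σ.symm (expo T) (b0 ∘ σ)]
    have : (b0 ∘ σ) ∘ σ.symm = b0 := by ext i; simp
    rw [this]; rfl
  rw [h3] at hT
  obtain ⟨σ, hσ, hσ0⟩ := Finset.exists_ne_zero_of_sum_ne_zero hT
  have hc : cc p q (expo T) (b0 ∘ σ) w ≠ 0 := right_ne_zero_of_mul hσ0
  refine ⟨T, b0 ∘ σ, cc_content p q _ _ w hc, ?_, ?_⟩
  · intro i
    by_contra hodd
    rw [Nat.not_odd_iff_even] at hodd
    let e : Fin n → ℤˣ := fun j => if j = i then -1 else 1
    have h4 := cc_act p q (SemidirectProduct.inl e) (expo T) (b0 ∘ σ) w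
    rw [hw] at h4
    have h5 : ∏ j, ((e j : ℤ) : ℂ) = -1 := by
      rw [Finset.prod_eq_single i]
      · simp [e]
      · intro j _ hj; simp [e, hj]
      · intro h; exact absurd (Finset.mem_univ i) h
    have h6 : ∏ j, ((e j : ℤ) : ℂ) ^ (expo T j + (b0 ∘ σ) j) = 1 := by
      refine Finset.prod_eq_one fun j _ => ?_
      by_cases hj : j = i
      · subst hj
        simp only [e, if_pos]
        push_cast
        exact hodd.neg_one_pow
      · simp [e, hj]
    have h7 : (SemidirectProduct.inl e : W n).left = e := rfl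
    have h8 : (SemidirectProduct.inl e : W n).right = 1 := rfl
    rw [h7, h8, h5, h6, map_smul] at h4
    simp only [Equiv.Perm.coe_one, Function.comp_id, one_mul, smul_eq_mul, neg_mul] at h4
    apply hc
    have h9 : (2 : ℂ) * cc p q (expo T) (b0 ∘ σ) w = 0 := by linear_combination -h4
    simpa using h9
  · rw [mem_CS] at hσ
    intro i j hij hb
    by_contra hne
    have hne' : σ i ≠ σ j := fun h => hne (σ.injective h)
    have hb' : b0 (σ i) = b0 (σ j) := hb
    have hcol : colOf T (σ i) = colOf T (σ j) := by rw [hσ, hσ, hij]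
    apply hT
    have hb0 : b0 ∘ Equiv.swap (σ i) (σ j) = b0 := by
      ext x
      simp only [Function.comp_apply, Equiv.swap_apply_def]
      split_ifs with h1 h2
      · rw [h1, hb']
      · rw [h2, hb']
      · rfl
    have hcolb : ∀ x, colOf T (Equiv.swap (σ i) (σ j) x) = colOf T x := by
      intro x
      simp only [Equiv.swap_apply_def]
      split_ifs with h1 h2
      · rw [h1, hcol]
      · rw [h2, hcol]
      · rfl
    refine Finset.sum_involution (fun τ _ => Equiv.swap (σ i) (σ j) * τ) ?_ ?_ ?_ ?_
    · intro τ _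
      have h1 : b0 ∘ (Equiv.swap (σ i) (σ j) * τ : Equiv.Perm (Fin n)) = b0 ∘ τ := by
        rw [Equiv.Perm.coe_mul, ← Function.comp_assoc, hb0]
      rw [h1, Equiv.Perm.sign_mul, Equiv.Perm.sign_swap hne']
      push_cast
      ring
    · intro τ _ _ h
      apply hne'
      have h1 : Equiv.swap (σ i) (σ j) = 1 := mul_eq_right.1 h
      exact (Equiv.swap_eq_one_iff).1 h1
    · intro τ hτ
      rw [mem_CS] at hτ ⊢
      intro x
      rw [Equiv.Perm.mul_apply, hcolb, hτ]
    · intro τ _
      rw [← mul_assoc, Equiv.swap_mul_self, one_mul]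

end

end Pool.Agent.Saxl
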