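import Mathlib
import Pool.Agent.Helper83.Saxl.Ten

namespace Pool.Agent.Saxl

open scoped TensorProduct
open MvPolynomial

noncomputable section

theorem sum_rowLen_eq (μ : YoungDiagram) (t : ℕ) :
    ∑ r ∈ Finset.range t, μ.rowLen r =
      (Finset.univ.filter fun c : {c // c ∈ μ.cells} => c.1.1 < t).card := by
  have h := Finset.card_eq_sum_card_fiberwise
    (s := Finset.univ.filter fun c : {c // c ∈ μ.cells} => c.1.1 < t) (t := Finset.range t)
    (f := fun c => c.1.1) (by
      intro c hc
      simpa using hc)
  rw [h]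
  refine Finset.sum_congr rfl fun r hr => ?_
  rw [YoungDiagram.rowLen_eq_card]
  refine Finset.card_bij (fun c hc => ⟨c, ?_⟩) ?_ ?_ ?_
  · rw [YoungDiagram.mem_row_iff] at hc
    exact hc.1
  · intro c hc
    rw [YoungDiagram.mem_row_iff] at hc
    rw [Finset.mem_filter, Finset.mem_filter]
    refine ⟨⟨Finset.mem_univ _, ?_⟩, hc.2⟩
    rw [hc.2]
    exact Finset.mem_range.1 hr
  · intro c _ d _ h
    exact congrArg Subtype.val h
  · intro c hc
    rw [Finset.mem_filter] at hc
    refine ⟨c.1, ?_, rfl⟩
    rw [YoungDiagram.mem_row_iff]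
    exact ⟨c.2, hc.2⟩

theorem dom_of_filling (μ ν : YoungDiagram) (f : {c // c ∈ μ.cells} → ℕ)
    (hcont : ∀ r, (Finset.univ.filter fun c => f c = r).card = ν.rowLen r)
    (hinj : ∀ c d : {c // c ∈ μ.cells}, c.1.2 = d.1.2 → f c = f d → c = d) : Dom ν μ := by
  intro t
  have h1 : ∑ r ∈ Finset.range t, ν.rowLen r =
      (Finset.univ.filter fun c : {c // c ∈ μ.cells} => f c < t).card := by
    have h := Finset.card_eq_sum_card_fiberwise
      (s := Finset.univ.filter fun c : {c // c ∈ μ.cells} => f c < t) (t := Finset.range t)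
      (f := f) (by
        intro c hc
        simpa using hc)
    rw [h]
    refine Finset.sum_congr rfl fun r hr => ?_
    rw [← hcont r]
    congr 1
    ext c
    simp only [Finset.mem_filter, Finset.mem_univ, true_and]
    constructor
    · intro h; exact ⟨by rw [h]; exact Finset.mem_range.1 hr, h⟩
    · intro h; exact h.2
  rw [h1, sum_rowLen_eq]
  have h2 := Finset.card_eq_sum_card_fiberwise
      (s := Finset.univ.filter fun c : {c // c ∈ μ.cells} => f c < t)
      (t := μ.cells.image Prod.snd)
      (f := fun c => c.1.2) (by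
        intro c _
        simp only [Finset.coe_image]
        exact ⟨c.1, c.2, rfl⟩)
  have h3 := Finset.card_eq_sum_card_fiberwise
      (s := Finset.univ.filter fun c : {c // c ∈ μ.cells} => c.1.1 < t)
      (t := μ.cells.image Prod.snd)
      (f := fun c => c.1.2) (by
        intro c _
        simp only [Finset.coe_image]
        exact ⟨c.1, c.2, rfl⟩)
  rw [h2, h3]
  refine Finset.sum_le_sum fun s _ => ?_
  have h4 : ((Finset.univ.filter fun c : {c // c ∈ μ.cells} => c.1.1 < t).filter
      fun c => c.1.2 = s).card = min t (μ.colLen s) := by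
    rw [← Finset.card_range (min t (μ.colLen s))]
    symm
    refine Finset.card_bij (fun i hi => ⟨(i, s), ?_⟩) ?_ ?_ ?_
    · rw [Finset.mem_range, lt_min_iff] at hi
      exact YoungDiagram.mem_iff_lt_colLen.2 hi.2
    · intro i hi
      rw [Finset.mem_range, lt_min_iff] at hi
      simp [hi.1]
    · intro i _ j _ h
      simpa using h
    · rintro ⟨⟨i, j⟩, hc⟩ h
      simp only [Finset.mem_filter, Finset.mem_univ, true_and] at h
      obtain ⟨h5, rfl⟩ := h
      refine ⟨i, ?_, rfl⟩
      rw [Finset.mem_range, lt_min_iff]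
      exact ⟨h5, YoungDiagram.mem_iff_lt_colLen.1 hc⟩
  rw [h4, le_min_iff]
  constructor
  · rw [← Finset.card_range t]
    refine Finset.card_le_card_of_injOn f ?_ ?_
    · intro c hc
      simp only [Finset.coe_filter, Finset.mem_filter, Finset.mem_univ, true_and] at hc
      simpa using hc.1
    · intro c hc d hd h
      simp only [Finset.coe_filter, Finset.mem_filter, Finset.mem_univ, true_and] at hc hd
      exact hinj c d (hc.2.trans hd.2.symm) h
  · rw [← Finset.card_range (μ.colLen s)]
    refine Finset.card_le_card_of_injOn (fun c => c.1.1) ?_ ?_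
    · rintro ⟨⟨i, j⟩, hc'⟩ hc
      simp only [Finset.coe_filter, Finset.mem_filter, Finset.mem_univ, true_and] at hc
      obtain ⟨_, rfl⟩ := hc
      simpa using! YoungDiagram.mem_iff_lt_colLen.1 hc'
    · intro c hc d hd h
      simp only [Finset.coe_filter, Finset.mem_filter, Finset.mem_univ, true_and] at hc hd
      exact Subtype.ext (Prod.ext h (hc.2.trans hd.2.symm))

theorem eq_of_rowLen {μ ν : YoungDiagram} (h : ∀ i, μ.rowLen i = ν.rowLen i) : μ = ν := by
  apply YoungDiagram.ext
  ext ⟨i, j⟩
  rw [YoungDiagram.mem_cells, YoungDiagram.mem_cells, YoungDiagram.mem_iff_lt_rowLen,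
    YoungDiagram.mem_iff_lt_rowLen, h]

theorem eq_of_dom {μ ν : YoungDiagram} (h1 : Dom μ ν) (h2 : Dom ν μ) : μ = ν := by
  apply eq_of_rowLen
  intro i
  have h3 := h1 i
  have h4 := h2 i
  have h5 := h1 (i + 1)
  have h6 := h2 (i + 1)
  rw [Finset.sum_range_succ, Finset.sum_range_succ] at h5 h6
  omega

variable {n : ℕ}

theorem dom_of_data (p q : Bip n) (T : Tab p) (b : Fin n → ℕ) (hb : HasContent q b)
    (hodd : ∀ i, Odd (expo T i + b i))
    (hinj : ∀ i j, colOf T i = colOf T j → b i = b j → i = j) :
    Dom q.1.2 p.1.1 ∧ Dom q.1.1 p.1.2 := by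
  have hl : ∀ c, b (T (Sum.inl c)) % 2 = 1 := by
    intro c
    have := hodd (T (Sum.inl c))
    simp only [expo, Equiv.symm_apply_apply, Sum.elim_inl] at this
    rw [Nat.odd_iff] at this
    omega
  have hr : ∀ c, b (T (Sum.inr c)) % 2 = 0 := by
    intro c
    have := hodd (T (Sum.inr c))
    simp only [expo, Equiv.symm_apply_apply, Sum.elim_inr] at this
    rw [Nat.odd_iff] at this
    omega
  constructor
  · refine dom_of_filling _ _ (fun c => b (T (Sum.inl c)) / 2) ?_ ?_
    · intro r
      rw [← (hb r).2]
      refine Finset.card_bij (fun c _ => T (Sum.inl c)) ?_ ?_ ?_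
      · intro c hc
        rw [Finset.mem_filter] at hc ⊢
        refine ⟨Finset.mem_univ _, ?_⟩
        have := hl c
        omega
      · intro c _ d _ h
        simpa using T.injective h
      · intro i hi
        rw [Finset.mem_filter] at hi
        rcases h : T.symm i with c | c
        · refine ⟨c, ?_, by rw [← h]; simp⟩
          rw [Finset.mem_filter]
          refine ⟨Finset.mem_univ _, ?_⟩
          rw [← h, Equiv.apply_symm_apply]
          omega
        · have h1 := hr c
          rw [← h, Equiv.apply_symm_apply] at h1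
          omega
    · intro c d hcd h
      have h1 := hinj (T (Sum.inl c)) (T (Sum.inl d)) (by simp [colOf, hcd]) (by
        have := hl c
        have := hl d
        have h' : b (T (Sum.inl c)) / 2 = b (T (Sum.inl d)) / 2 := h
        omega)
      simpa using h1
  · refine dom_of_filling _ _ (fun c => b (T (Sum.inr c)) / 2) ?_ ?_
    · intro r
      rw [← (hb r).1]
      refine Finset.card_bij (fun c _ => T (Sum.inr c)) ?_ ?_ ?_
      · intro c hc
        rw [Finset.mem_filter] at hc ⊢
        refine ⟨Finset.mem_univ _, ?_⟩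
        have := hr c
        omega
      · intro c _ d _ h
        simpa using T.injective h
      · intro i hi
        rw [Finset.mem_filter] at hi
        rcases h : T.symm i with c | c
        · have h1 := hl c
          rw [← h, Equiv.apply_symm_apply] at h1
          omega
        · refine ⟨c, ?_, by rw [← h]; simp⟩
          rw [Finset.mem_filter]
          refine ⟨Finset.mem_univ _, ?_⟩
          rw [← h, Equiv.apply_symm_apply]
          omega
    · intro c d hcd h
      have h1 := hinj (T (Sum.inr c)) (T (Sum.inr d)) (by simp [colOf, hcd]) (by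
        have := hr c
        have := hr d
        have h' : b (T (Sum.inr c)) / 2 = b (T (Sum.inr d)) / 2 := h
        omega)
      simpa using h1

/-- A nonzero `δ`-semi-invariant in `S^p ⊗ S^q` forces `q = (β, α)` if `p = (α, β)`. -/
theorem swap_of_semi (p q : Bip n) (w : (spe p).toSubmodule ⊗[ℂ] (spe q).toSubmodule)
    (hw : ∀ g : W n, ((spe p).toRepresentation.tprod (spe q).toRepresentation) g w =
      (∏ i, ((g.left i : ℤ) : ℂ)) • w) (h0 : w ≠ 0) :
    q.1.1 = p.1.2 ∧ q.1.2 = p.1.1 := by
  obtain ⟨T, b, h1, h2, h3⟩ := main_step p q w hw h0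
  have hd1 := dom_of_data p q T b h1 h2 h3
  obtain ⟨T', b', h1', h2', h3'⟩ := main_step q p (TensorProduct.comm ℂ _ _ w) (by
    intro g
    rw [← map_smul, ← hw g]
    clear hw h0
    induction w using TensorProduct.induction_on with
    | zero => simp
    | tmul x y => simp [Representation.tprod_apply]
    | add x y hx hy => rw [map_add, map_add, map_add, map_add, hx, hy]) (by
    intro h
    apply h0
    exact (TensorProduct.comm ℂ _ _).injective (by rw [h, map_zero]))
  have hd2 := dom_of_data q p T' b' h1' h2' h3'
  exact ⟨eq_of_dom hd1.2 hd2.1, eq_of_dom hd1.1 hd2.2⟩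

end

end Pool.Agent.Saxl
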