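import Mathlib
import Pool.Agent.Helper83.Saxl.DomL

namespace Pool.Agent.Saxl

/-- Young diagram with prescribed row lengths -/
def ofAnti (f : ℕ → ℕ) (hf : Antitone f) (N : ℕ) : YoungDiagram where
  cells := ((Finset.range N) ×ˢ (Finset.range (f 0))).filter fun c => c.2 < f c.1
  isLowerSet := by
    rintro ⟨i, j⟩ ⟨i', j'⟩ h hc
    simp only [Finset.coe_filter, Finset.mem_product, Finset.mem_range, Set.mem_ofPred_eq] at hc ⊢
    obtain ⟨h1, h2⟩ := h
    simp only at h1 h2
    have h3 := hf h1
    omega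

theorem rowLen_ofAnti (f : ℕ → ℕ) (hf : Antitone f) (N : ℕ) (hN : f N = 0) (i : ℕ) :
    (ofAnti f hf N).rowLen i = f i := by
  have key : ∀ j, j < (ofAnti f hf N).rowLen i ↔ j < f i := by
    intro j
    rw [← YoungDiagram.mem_iff_lt_rowLen]
    change (i, j) ∈ (((Finset.range N) ×ˢ (Finset.range (f 0))).filter fun c => c.2 < f c.1) ↔ _
    simp only [Finset.mem_filter, Finset.mem_product, Finset.mem_range]
    constructor
    · intro h; exact h.2
    · intro h
      have h1 := hf (Nat.zero_le i)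
      refine ⟨⟨?_, by omega⟩, h⟩
      by_contra hcon
      have h2 := hf (not_lt.1 hcon)
      omega
  have h1 := key (f i)
  have h2 := key ((ofAnti f hf N).rowLen i)
  omega

/-- rows of the minimal solvable orbit -/
def fO (k i : ℕ) : ℕ := if i < 2 * k - 1 then 2 * k - 1 - 2 * (i / 2) else 0

/-- rows of its dual -/
def fD (k i : ℕ) : ℕ := if i = 0 then 2 * k - 1 else 2 * k - 2 * ((i + 1) / 2)

theorem fO_anti (k : ℕ) : Antitone (fO k) := by
  intro i j hij
  unfold fO
  split_ifs <;> omega

theorem fD_anti (k : ℕ) : Antitone (fD k) := by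
  intro i j hij
  unfold fD
  split_ifs <;> omega

/-- the minimal solvable orbit `(2k-1,2k-1,…,3,3,1)` -/
def OO (k : ℕ) : YoungDiagram := ofAnti (fO k) (fO_anti k) (2 * k - 1)

/-- its dual `(2k-1,2k-2,2k-2,…,2,2)` -/
def DD (k : ℕ) : YoungDiagram := ofAnti (fD k) (fD_anti k) (2 * k - 1)

theorem rowLen_OO (k i : ℕ) : (OO k).rowLen i = fO k i := by
  apply rowLen_ofAnti
  simp [fO]

theorem rowLen_DD {k : ℕ} (i : ℕ) (h : 2 ≤ k): (DD k).rowLen i = fD k i := by
  apply rowLen_ofAnti
  unfold fD
  rw [if_neg (by omega)]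
  omega

theorem sumO (k : ℕ) (j : ℕ) (hj : j + 1 ≤ k) :
    ∑ i ∈ Finset.range (2 * j), fO k i + 2 * j ^ 2 = 4 * j * k ∧
      ∑ i ∈ Finset.range (2 * j + 1), fO k i + 2 * j ^ 2 + 2 * j + 1 = 4 * j * k + 2 * k := by
  induction j with
  | zero =>
    simp [fO]
    rw [if_pos (by omega)]
    omega
  | succ j ih =>
    obtain ⟨_, ih2⟩ := ih (by omega)
    have h1 : fO k (2 * j + 1) + 2 * j + 1 = 2 * k := by
      unfold fO
      rw [if_pos (by omega)]
      omega
    have h2 : fO k (2 * (j + 1)) + 2 * j + 3 = 2 * k := by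
      unfold fO
      rw [if_pos (by omega)]
      omega
    have h3 : ∑ i ∈ Finset.range (2 * (j + 1)), fO k i + 2 * (j + 1) ^ 2 = 4 * (j + 1) * k := by
      rw [show 2 * (j + 1) = 2 * j + 1 + 1 by ring, Finset.sum_range_succ]
      linarith
    refine ⟨h3, ?_⟩
    rw [Finset.sum_range_succ]
    linarith

theorem sumD (k : ℕ) (j : ℕ) (hj : j + 1 ≤ k) :
    (1 ≤ j → ∑ i ∈ Finset.range (2 * j), fD k i + 2 * j ^ 2 + 1 = 4 * j * k) ∧
      ∑ i ∈ Finset.range (2 * j + 1), fD k i + 2 * j ^ 2 + 2 * j + 1 = 4 * j * k + 2 * k := by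
  induction j with
  | zero =>
    simp [fD]
    omega
  | succ j ih =>
    obtain ⟨_, ih2⟩ := ih (by omega)
    have h1 : fD k (2 * j + 1) + 2 * j + 2 = 2 * k := by
      unfold fD
      rw [if_neg (by omega)]
      omega
    have h2 : fD k (2 * (j + 1)) + 2 * j + 2 = 2 * k := by
      unfold fD
      rw [if_neg (by omega)]
      omega
    have h3 : ∑ i ∈ Finset.range (2 * (j + 1)), fD k i + 2 * (j + 1) ^ 2 + 1
        = 4 * (j + 1) * k := by
      rw [show 2 * (j + 1) = 2 * j + 1 + 1 by ring, Finset.sum_range_succ]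
      linarith
    refine ⟨fun _ => h3, ?_⟩
    rw [Finset.sum_range_succ]
    linarith

theorem mem_beta {l : ℕ} {α : YoungDiagram} {x : ℕ} :
    x ∈ beta l α ↔ ∃ t < l, α.rowLen t + (l - 1 - t) = x := by
  unfold beta
  rw [Finset.mem_image]
  constructor
  · rintro ⟨i, hi, h⟩
    rw [Finset.mem_range] at hi
    refine ⟨l - 1 - i, by omega, ?_⟩
    rw [← h]
    congr 1
    omega
  · rintro ⟨t, ht, h⟩
    refine ⟨l - 1 - t, ?_, ?_⟩
    · rw [Finset.mem_range]; omega
    · rw [← h]
      congr 2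
      omega

/-- rows of an orbit between `D` and `O` -/
theorem interval_rows {k : ℕ} (hk : 2 ≤ k) (μ : YoungDiagram) (h1 : Dom (DD k) μ)
    (h2 : Dom μ (OO k)) :
    ∃ e : ℕ → ℕ, (∀ i, e i ≤ 1) ∧ e 0 = 0 ∧ (∀ i < k, μ.rowLen (2 * i) + 2 * i + 1 = 2 * k + e i) ∧
      (∀ i, 1 ≤ i → i < k → μ.rowLen (2 * i - 1) + 2 * i + e i = 2 * k + 1) ∧
      ∀ t, 2 * k - 1 ≤ t → μ.rowLen t = 0 := by
  have hO : ∀ t, ∑ i ∈ Finset.range t, (OO k).rowLen i = ∑ i ∈ Finset.range t, fO k i :=
    fun t => Finset.sum_congr rfl fun i _ => rowLen_OO k i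
  have hD : ∀ t, ∑ i ∈ Finset.range t, (DD k).rowLen i = ∑ i ∈ Finset.range t, fD k i :=
    fun t => Finset.sum_congr rfl fun i _ => rowLen_DD i hk
  set f := μ.rowLen with hf
  set S : ℕ → ℕ := fun t => ∑ i ∈ Finset.range t, f i with hS
  have hS1 : ∀ t, S (t + 1) = S t + f t := fun t => Finset.sum_range_succ _ _
  have hodd : ∀ j, j + 1 ≤ k → S (2 * j + 1) = ∑ i ∈ Finset.range (2 * j + 1), fO k i := by
    intro j hj
    have a1 := h1 (2 * j + 1)
    have a2 := h2 (2 * j + 1)
    rw [hO] at a2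
    rw [hD] at a1
    have b1 := (sumO k j hj).2
    have b2 := (sumD k j hj).2
    change _ ≤ S (2 * j + 1) at a1
    change S (2 * j + 1) ≤ _ at a2
    omega
  have heven : ∀ j, 1 ≤ j → j + 1 ≤ k → S (2 * j) ≤ ∑ i ∈ Finset.range (2 * j), fO k i ∧
      ∑ i ∈ Finset.range (2 * j), fO k i ≤ S (2 * j) + 1 := by
    intro j hj0 hj
    have a1 := h1 (2 * j)
    have a2 := h2 (2 * j)
    rw [hO] at a2
    rw [hD] at a1
    have b1 := (sumO k j hj).1
    have b2 := (sumD k j hj).1 hj0
    change _ ≤ S (2 * j) at a1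
    change S (2 * j) ≤ _ at a2
    omega
  refine ⟨fun i => if 1 ≤ i ∧ i + 1 ≤ k then ∑ l ∈ Finset.range (2 * i), fO k l - S (2 * i) else 0,
    ?_, ?_, ?_, ?_, ?_⟩
  · intro i
    simp only
    split_ifs with h
    · have := heven i h.1 h.2
      omega
    · omega
  · simp
  · intro i hi
    have b1 := sumO k i (by omega)
    have b3 := hodd i (by omega)
    have b4 := hS1 (2 * i)
    simp only
    split_ifs with h
    · have b5 := heven i h.1 h.2
      have b6 : fO k (2 * i) + 2 * i + 1 = 2 * k := by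
        unfold fO
        rw [if_pos (by omega)]
        omega
      have b7 : ∑ l ∈ Finset.range (2 * i + 1), fO k l =
        ∑ l ∈ Finset.range (2 * i), fO k l + fO k (2 * i) := Finset.sum_range_succ _ _
      omega
    · have : i = 0 := by omega
      subst this
      have b6 : S 0 = 0 := by simp [hS]
      simp only [mul_zero, zero_add] at b1 b3 b4 ⊢
      omega
  · intro i hi1 hi
    have b1 := sumO k i (by omega)
    obtain ⟨j, rfl⟩ : ∃ j, i = j + 1 := ⟨i - 1, by omega⟩
    have b3 := hodd j (by omega)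
    have b4 := hS1 (2 * j + 1)
    have b5 := heven (j + 1) hi1 (by omega)
    simp only
    rw [if_pos ⟨hi1, by omega⟩]
    rw [show 2 * (j + 1) - 1 = 2 * j + 1 by omega]
    rw [show 2 * (j + 1) = 2 * j + 1 + 1 by ring] at b5 ⊢
    have b6 : fO k (2 * j + 1) + 2 * j + 1 = 2 * k := by
      unfold fO
      rw [if_pos (by omega)]
      omega
    have b7 : ∑ l ∈ Finset.range (2 * j + 1 + 1), fO k l =
        ∑ l ∈ Finset.range (2 * j + 1), fO k l + fO k (2 * j + 1) := Finset.sum_range_succ _ _
    omega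
  · intro t ht
    have b1 : f (2 * k - 1) = 0 := by
      have c1 := hodd (k - 1) (by omega)
      have c2 := h2 (2 * k)
      rw [hO] at c2
      change S (2 * k) ≤ _ at c2
      have c3 := hS1 (2 * k - 1)
      have c4 : ∑ l ∈ Finset.range (2 * k - 1 + 1), fO k l =
        ∑ l ∈ Finset.range (2 * k - 1), fO k l + fO k (2 * k - 1) := Finset.sum_range_succ _ _
      rw [show 2 * k - 1 + 1 = 2 * k by omega] at c3 c4
      rw [show 2 * (k - 1) + 1 = 2 * k - 1 by omega] at c1
      have c5 : fO k (2 * k - 1) = 0 := by simp [fO]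
      omega
    have b2 := μ.rowLen_anti (2 * k - 1) t ht
    have b3 : μ.rowLen (2 * k - 1) = 0 := b1
    change μ.rowLen t = 0
    omega

/-- the beta set of an orbit between `D` and `O` -/
theorem interval_beta {k n M : ℕ} (hk : 2 ≤ k) (hM : M + k = n + 1) (hM0 : 1 ≤ M)
    (μ : YoungDiagram) (h1 : Dom (DD k) μ) (h2 : Dom μ (OO k)) :
    ∃ m : ℕ → ℕ, (∀ j, m j ≤ 1) ∧ m k = 0 ∧ ∀ x, x ∈ beta (2 * n + 1) μ ↔
      x < 2 * M ∨ (∃ j, 1 ≤ j ∧ j ≤ k ∧ x + 3 = 2 * M + 4 * j + m j) ∨
        (∃ j, 1 ≤ j ∧ j < k ∧ x + m j = 2 * M + 4 * j) := by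
  obtain ⟨e, he1, he0, hev, hod, hz⟩ := interval_rows hk μ h1 h2
  refine ⟨fun j => e (k - j), fun j => he1 _, by simp [he0], ?_⟩
  intro x
  rw [mem_beta]
  constructor
  · rintro ⟨t, ht, hx⟩
    by_cases htk : 2 * k - 1 ≤ t
    · left
      rw [hz t htk] at hx
      omega
    · right
      rcases Nat.even_or_odd' t with ⟨i, rfl | rfl⟩
      · left
        refine ⟨k - i, by omega, by omega, ?_⟩
        have := hev i (by omega)
        simp only [show k - (k - i) = i by omega]
        omega
      · right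
        have := hod (i + 1) (by omega) (by omega)
        refine ⟨k - (i + 1), by omega, by omega, ?_⟩
        simp only [show k - (k - (i + 1)) = i + 1 by omega]
        rw [show 2 * (i + 1) - 1 = 2 * i + 1 by omega] at this
        omega
  · rintro (h | ⟨j, hj1, hj2, h⟩ | ⟨j, hj1, hj2, h⟩)
    · refine ⟨2 * n - x, by omega, ?_⟩
      rw [hz _ (by omega)]
      omega
    · refine ⟨2 * (k - j), by omega, ?_⟩
      have := hev (k - j) (by omega)
      simp only at h
      omega
    · refine ⟨2 * (k - j) - 1, by omega, ?_⟩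
      have := hod (k - j) (by omega) (by omega)
      simp only at h
      omega


/-- indicator -/
def ind (s : Finset ℕ) (x : ℕ) : ℕ := if x ∈ s then 1 else 0

theorem ind_le (s : Finset ℕ) (x : ℕ) : ind s x ≤ 1 := by
  unfold ind
  split_ifs <;> omega

theorem ind_pos {s : Finset ℕ} {x : ℕ} (h : x ∈ s) : ind s x = 1 := if_pos h

theorem ind_neg {s : Finset ℕ} {x : ℕ} (h : x ∉ s) : ind s x = 0 := if_neg h

theorem count_val (s : Finset ℕ) (x : ℕ) : s.val.count x = ind s x := by
  unfold ind
  rw [Multiset.count_eq_of_nodup s.nodup]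
  rfl

theorem family_ind {n : ℕ} {p q : Bip n} (h : SameFamily p q) (x : ℕ) :
    ind (beta (n + 1) p.1.1) x + ind (beta n p.1.2) x =
      ind (beta (n + 1) q.1.1) x + ind (beta n q.1.2) x := by
  have := congrArg (Multiset.count x) h
  rwa [Multiset.count_add, Multiset.count_add, count_val, count_val, count_val, count_val] at this

theorem card_pos_rows (μ : YoungDiagram) (t : ℕ) (h : 0 < μ.rowLen t) : t < μ.card := by
  have h1 : (Finset.range (t + 1)).image (fun i => (i, 0)) ⊆ μ.cells := by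
    intro c hc
    rw [Finset.mem_image] at hc
    obtain ⟨i, hi, rfl⟩ := hc
    rw [Finset.mem_range] at hi
    rw [YoungDiagram.mem_cells, YoungDiagram.mem_iff_lt_rowLen]
    have := μ.rowLen_anti i t (by omega)
    omega
  have h2 := Finset.card_le_card h1
  rw [Finset.card_image_of_injective _ (fun a b hab => by simpa using hab),
    Finset.card_range] at h2
  exact h2

theorem beta_succ {n : ℕ} {α : YoungDiagram} (h : α.card ≤ n) (x : ℕ) :
    ind (beta (n + 1) α) (x + 1) = ind (beta n α) x := by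
  have h0 : α.rowLen n = 0 := by
    by_contra hne
    have := card_pos_rows α n (Nat.pos_of_ne_zero hne)
    omega
  unfold ind
  congr 1
  rw [mem_beta, mem_beta, eq_iff_iff]
  constructor
  · rintro ⟨t, ht, hx⟩
    have htn : t ≠ n := by
      rintro rfl
      rw [h0] at hx
      omega
    exact ⟨t, by omega, by omega⟩
  · rintro ⟨t, ht, hx⟩
    exact ⟨t, by omega, by omega⟩

/-- the counting function of a family in the interval -/
theorem family_counts {k n M : ℕ} (hk : 2 ≤ k) (hM : M + k = n + 1) (hM0 : 1 ≤ M)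
    (p : Bip n) (hp : InSigma (OO k) (DD k) p) :
    ∃ (m : ℕ → ℕ) (Z : ℕ → ℕ), (∀ j, m j ≤ 1) ∧ m k = 0 ∧
      (∀ x, ind (beta (n + 1) p.1.1) x + ind (beta n p.1.2) x = Z x) ∧
      Z (M - 1) = 2 ∧ Z M + m 1 = 1 ∧ (∀ j, 1 ≤ j → j < k → Z (M + 2 * j - 1) = 2 * m j) ∧
      (∀ j, 1 ≤ j → j < k → Z (M + 2 * j) + m j + m (j + 1) = 2) ∧
      Z (M + 2 * k - 1) = 0 := by
  obtain ⟨μ, s, _, hD, hO, ⟨hs1, hs2⟩, _, hfam⟩ := hp
  obtain ⟨m, hm1, hmk, hb⟩ := interval_beta hk hM hM0 μ hD hO
  refine ⟨m, fun x => ind (beta (2 * n + 1) μ) (2 * x + 1) + ind (beta (2 * n + 1) μ) (2 * x),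
    hm1, hmk, ?_, ?_, ?_, ?_, ?_, ?_⟩
  · intro x
    rw [family_ind hfam]
    unfold ind
    simp only [hs1, hs2]
  · simp only
    rw [ind_pos, ind_pos]
    · rw [hb]; left; omega
    · rw [hb]; left; omega
  · simp only
    have hm11 := hm1 1
    have h1 : ind (beta (2 * n + 1) μ) (2 * M) = 0 := by
      apply ind_neg
      rw [hb]
      rintro (h | ⟨j, h1, h2, h3⟩ | ⟨j, h1, h2, h3⟩)
      · omega
      · have := hm1 j; omega
      · have := hm1 j; omega
    rw [h1]
    rcases Nat.eq_zero_or_pos (m 1) with h0 | h0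
    · rw [ind_pos]
      · omega
      · rw [hb]
        right; left
        exact ⟨1, by omega, by omega, by omega⟩
    · rw [ind_neg]
      · omega
      · rw [hb]
        rintro (h | ⟨j, h1, h2, h3⟩ | ⟨j, h1, h2, h3⟩)
        · omega
        · have := hm1 j
          have : j = 1 := by omega
          subst this
          omega
        · have := hm1 j; omega
  · intro j hj1 hj2
    simp only
    have hmj := hm1 j
    rcases Nat.eq_zero_or_pos (m j) with h0 | h0
    · rw [ind_neg, ind_neg, h0]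
      · rw [hb]
        rintro (h | ⟨j', h1, h2, h3⟩ | ⟨j', h1, h2, h3⟩)
        · omega
        · have := hm1 j'
          have : j' = j := by omega
          subst this
          omega
        · have := hm1 j'; omega
      · rw [hb]
        rintro (h | ⟨j', h1, h2, h3⟩ | ⟨j', h1, h2, h3⟩)
        · omega
        · have := hm1 j'; omega
        · have := hm1 j'
          have : j' = j := by omega
          subst this
          omega
    · rw [ind_pos, ind_pos]
      · omega
      · rw [hb]
        right; left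
        exact ⟨j, by omega, by omega, by omega⟩
      · rw [hb]
        right; right
        exact ⟨j, by omega, by omega, by omega⟩
  · intro j hj1 hj2
    simp only
    have hmj := hm1 j
    have hmj1 := hm1 (j + 1)
    have h1 : ind (beta (2 * n + 1) μ) (2 * (M + 2 * j) + 1) + m (j + 1) = 1 := by
      rcases Nat.eq_zero_or_pos (m (j + 1)) with h0 | h0
      · rw [ind_pos, h0]
        rw [hb]
        right; left
        exact ⟨j + 1, by omega, by omega, by omega⟩
      · rw [ind_neg]
        · omega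
        · rw [hb]
          rintro (h | ⟨j', h1, h2, h3⟩ | ⟨j', h1, h2, h3⟩)
          · omega
          · have := hm1 j'
            have : j' = j + 1 := by omega
            subst this
            omega
          · have := hm1 j'; omega
    have h2 : ind (beta (2 * n + 1) μ) (2 * (M + 2 * j)) + m j = 1 := by
      rcases Nat.eq_zero_or_pos (m j) with h0 | h0
      · rw [ind_pos, h0]
        rw [hb]
        right; right
        exact ⟨j, by omega, by omega, by omega⟩
      · rw [ind_neg]
        · omega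
        · rw [hb]
          rintro (h | ⟨j', h1, h2, h3⟩ | ⟨j', h1, h2, h3⟩)
          · omega
          · have := hm1 j'; omega
          · have := hm1 j'
            have : j' = j := by omega
            subst this
            omega
    omega
  · simp only
    rw [ind_neg, ind_neg]
    · rw [hb]
      rintro (h | ⟨j', h1, h2, h3⟩ | ⟨j', h1, h2, h3⟩)
      · omega
      · have := hm1 j'
        have : j' = k := by omega
        subst this
        omega
      · have := hm1 j'; omega
    · rw [hb]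
      rintro (h | ⟨j', h1, h2, h3⟩ | ⟨j', h1, h2, h3⟩)
      · omega
      · have := hm1 j'; omega
      · have := hm1 j'; omega

/-- The combinatorial core. -/
theorem no_swap {k n M : ℕ} (hk : 2 ≤ k) (hke : Even k) (hM : M + k = n + 1) (hM0 : 1 ≤ M)
    (p q : Bip n) (hp : InSigma (OO k) (DD k) p) (hq : InSigma (OO k) (DD k) q)
    (h1 : q.1.1 = p.1.2) (h2 : q.1.2 = p.1.1) : False := by
  obtain ⟨mp, Zp, hp1, hpk, hpe, hp2, hp3, hp4, hp5, hp6⟩ := family_counts hk hM hM0 p hp
  obtain ⟨mq, Zq, hq1, hqk, hqe, hq2, hq3, hq4, hq5, hq6⟩ := family_counts hk hM hM0 q hq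
  set a := ind (beta (n + 1) p.1.1) with ha
  set b := ind (beta n p.1.2) with hb
  have hcard := p.2
  have hqe' : ∀ x, b x + a (x + 2) = Zq (x + 1) := by
    intro x
    rw [← hqe (x + 1), h1, h2]
    rw [beta_succ (by omega)]
    rw [hb, ha, ← beta_succ (by omega) (x + 1)]
  have hal : ∀ x, a x ≤ 1 := fun x => ind_le _ _
  have hbl : ∀ x, b x ≤ 1 := fun x => ind_le _ _
  have claim : ∀ j, 1 ≤ j → j < k → mp j + (j + 1) % 2 = 2 * ((j + 1) % 2) ∧
      mq j + (j + 1) % 2 = 2 * ((j + 1) % 2) := by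
    intro j hj
    induction j, hj using Nat.le_induction with
    | base =>
      intro _
      have e1 := hpe (M - 1)
      have e2 := hqe' (M - 1)
      rw [show M - 1 + 1 = M by omega, show M - 1 + 2 = M + 1 by omega] at e2
      have e3 := hpe (M + 1)
      have e4 := hp4 1 le_rfl (by omega)
      rw [show M + 2 * 1 - 1 = M + 1 by omega] at e4
      have e5 := hal (M - 1)
      have e6 := hbl (M - 1)
      have e7 := hbl (M + 1)
      omega
    | succ j hj ih =>
      intro hjk
      obtain ⟨i1, i2⟩ := ih (by omega)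
      have e1 := hqe' (M + 2 * j - 2)
      rw [show M + 2 * j - 2 + 1 = M + 2 * j - 1 by omega,
        show M + 2 * j - 2 + 2 = M + 2 * j by omega, hq4 j hj (by omega)] at e1
      have e2 := hqe' (M + 2 * j)
      have e2' := hq4 (j + 1) (by omega) hjk
      rw [show M + 2 * (j + 1) - 1 = M + 2 * j + 1 by omega] at e2'
      rw [e2'] at e2
      have e3 := hpe (M + 2 * j)
      have e4 := hp5 j hj (by omega)
      have f1 := hal (M + 2 * j)
      have f2 := hbl (M + 2 * j)
      have f3 := hbl (M + 2 * j - 2)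
      have f4 := hal (M + 2 * j + 2)
      have g1 := hp1 (j + 1)
      have g2 := hq1 (j + 1)
      have k1 : a (M + 2 * j) = mq j := by omega
      have k2 : b (M + 2 * j) = mq (j + 1) := by omega
      rcases Nat.mod_two_eq_zero_or_one (j + 1) with h | h
      · rw [h] at i1 i2
        have h' : (j + 1 + 1) % 2 = 1 := by omega
        rw [h']
        omega
      · rw [h] at i1 i2
        have h' : (j + 1 + 1) % 2 = 0 := by omega
        rw [h']
        omega
  obtain ⟨c1, c2⟩ := claim (k - 1) (by omega) (by omega)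
  have e1 := hqe' (M + 2 * k - 2)
  rw [show M + 2 * k - 2 + 1 = M + 2 * k - 1 by omega, hq6] at e1
  have e2 := hpe (M + 2 * k - 2)
  have e3 := hp5 (k - 1) (by omega) (by omega)
  rw [show M + 2 * (k - 1) = M + 2 * k - 2 by omega, show k - 1 + 1 = k by omega, hpk] at e3
  have f1 := hal (M + 2 * k - 2)
  obtain ⟨r, hr⟩ := hke
  omega

end Pool.Agent.Saxl
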