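import Mathlib
import Pool.Agent.Helper83.Saxl.DomL

namespace Pool.Agent.Saxl

open scoped TensorProduct
open MvPolynomial

noncomputable section

/-- A filling of `μ` whose content is given by the row lengths of `μ` and which is injective on
columns has entries smaller than the column length. -/
theorem filling_lt (μ : YoungDiagram) (f : {c // c ∈ μ.cells} → ℕ)
    (hcont : ∀ r, (Finset.univ.filter fun c => f c = r).card = μ.rowLen r)
    (hinj : ∀ c d : {c // c ∈ μ.cells}, c.1.2 = d.1.2 → f c = f d → c = d)
    (c0 : {c // c ∈ μ.cells}) : f c0 < μ.colLen c0.1.2 := by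
  by_contra hcon
  push Not at hcon
  set t := μ.colLen c0.1.2 with ht
  have h1 : ∑ r ∈ Finset.range t, μ.rowLen r =
      (Finset.univ.filter fun c : {c // c ∈ μ.cells} => f c < t).card := by
    have h := Finset.card_eq_sum_card_fiberwise
      (s := Finset.univ.filter fun c : {c // c ∈ μ.cells} => f c < t) (t := Finset.range t)
      (f := f) (by
        intro c hc
        simpa using hc)
    rw [h]
    refine Finset.sum_congr rfl fun r hr => ?_
    rw [← hcont r]
    congr 1
    ext c
    simp only [Finset.mem_filter, Finset.mem_univ, true_and]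
    constructor
    · intro h; exact ⟨by rw [h]; exact Finset.mem_range.1 hr, h⟩
    · intro h; exact h.2
  have h2 := Finset.card_eq_sum_card_fiberwise
      (s := Finset.univ.filter fun c : {c // c ∈ μ.cells} => f c < t)
      (t := μ.cells.image Prod.snd)
      (f := fun c => c.1.2) (by
        intro c _
        simp only [Finset.coe_image]
        exact ⟨c.1, c.2, rfl⟩)
  have h3 := Finset.card_eq_sum_card_fiberwise
      (s := Finset.univ.filter fun c : {c // c ∈ μ.cells} => c.1.1 < t)
      (t := μ.cells.image Prod.snd)
      (f := fun c => c.1.2) (by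
        intro c _
        simp only [Finset.coe_image]
        exact ⟨c.1, c.2, rfl⟩)
  rw [sum_rowLen_eq, h2, h3] at h1
  have h4 : ∀ s, ((Finset.univ.filter fun c : {c // c ∈ μ.cells} => c.1.1 < t).filter
      fun c => c.1.2 = s).card = min t (μ.colLen s) := by
    intro s
    rw [← Finset.card_range (min t (μ.colLen s))]
    symm
    refine Finset.card_bij (fun i hi => ⟨(i, s), ?_⟩) ?_ ?_ ?_
    · rw [Finset.mem_range, lt_min_iff] at hi
      exact YoungDiagram.mem_iff_lt_colLen.2 hi.2
    · intro i hi
      rw [Finset.mem_range, lt_min_iff] at hi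
      simp [hi.1]
    · intro i _ j _ h
      simpa using h
    · rintro ⟨⟨i, j⟩, hc⟩ h
      simp only [Finset.mem_filter, Finset.mem_univ, true_and] at h
      obtain ⟨h5, rfl⟩ := h
      refine ⟨i, ?_, rfl⟩
      rw [Finset.mem_range, lt_min_iff]
      exact ⟨h5, YoungDiagram.mem_iff_lt_colLen.1 hc⟩
  have hle : ∀ s, ((Finset.univ.filter fun c : {c // c ∈ μ.cells} => f c < t).filter
      fun c => c.1.2 = s).card ≤ min t (μ.colLen s) := by
    intro s
    rw [le_min_iff]
    constructor
    · rw [← Finset.card_range t]
      refine Finset.card_le_card_of_injOn f ?_ ?_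
      · intro c hc
        simp only [Finset.coe_filter, Finset.mem_filter, Finset.mem_univ, true_and] at hc
        simpa using hc.1
      · intro c hc d hd h
        simp only [Finset.coe_filter, Finset.mem_filter, Finset.mem_univ, true_and] at hc hd
        exact hinj c d (hc.2.trans hd.2.symm) h
    · rw [← Finset.card_range (μ.colLen s)]
      refine Finset.card_le_card_of_injOn (fun c => c.1.1) ?_ ?_
      · rintro ⟨⟨i, j⟩, hc'⟩ hc
        simp only [Finset.coe_filter, Finset.mem_filter, Finset.mem_univ, true_and] at hc
        obtain ⟨_, rfl⟩ := hc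
        simpa using! YoungDiagram.mem_iff_lt_colLen.1 hc'
      · intro c hc d hd h
        simp only [Finset.coe_filter, Finset.mem_filter, Finset.mem_univ, true_and] at hc hd
        exact Subtype.ext (Prod.ext h (hc.2.trans hd.2.symm))
  have hlt : ((Finset.univ.filter fun c : {c // c ∈ μ.cells} => f c < t).filter
      fun c => c.1.2 = c0.1.2).card < min t (μ.colLen c0.1.2) := by
    rw [← ht, min_self]
    have hcol : ((Finset.univ : Finset {c // c ∈ μ.cells}).filter
        fun c => c.1.2 = c0.1.2).card = t := by
      rw [← Finset.card_range t]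
      symm
      refine Finset.card_bij (fun i hi => ⟨(i, c0.1.2), ?_⟩) ?_ ?_ ?_
      · rw [Finset.mem_range] at hi
        exact YoungDiagram.mem_iff_lt_colLen.2 hi
      · intro i hi
        simp
      · intro i _ j _ h
        simpa using h
      · rintro ⟨⟨i, j⟩, hc⟩ h
        simp only [Finset.mem_filter, Finset.mem_univ, true_and] at h
        subst h
        refine ⟨i, ?_, rfl⟩
        rw [Finset.mem_range]
        exact YoungDiagram.mem_iff_lt_colLen.1 hc
    rw [← hcol]
    apply Finset.card_lt_card
    rw [Finset.ssubset_iff_of_subset]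
    · refine ⟨c0, by simp, ?_⟩
      simp only [Finset.mem_filter, Finset.mem_univ, true_and, not_and]
      omega
    · intro c hc
      simp only [Finset.mem_filter, Finset.mem_univ, true_and] at hc ⊢
      exact hc.2
  have hfin : ∑ s ∈ μ.cells.image Prod.snd,
      ((Finset.univ.filter fun c : {c // c ∈ μ.cells} => f c < t).filter
        fun c => c.1.2 = s).card <
      ∑ s ∈ μ.cells.image Prod.snd,
        ((Finset.univ.filter fun c : {c // c ∈ μ.cells} => c.1.1 < t).filter
          fun c => c.1.2 = s).card := by
    refine Finset.sum_lt_sum (fun s _ => ?_) ⟨c0.1.2, ?_, ?_⟩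
    · rw [h4]; exact hle s
    · exact Finset.mem_image.2 ⟨c0.1, c0.2, rfl⟩
    · rw [h4]; exact hlt
  omega

variable {n : ℕ}

/-- An exponent vector of content `p` with the parity pattern of `T` and injective on the columns of
`T` is a column permutation of `expo T`. -/
theorem exists_perm_of_content {p : Bip n} (T : Tab p) (a : Fin n → ℕ) (ha : HasContent p a)
    (hpar : ∀ i, (expo T i + a i) % 2 = 0)
    (hinj : ∀ i j, colOf T i = colOf T j → a i = a j → i = j) :
    ∃ τ ∈ CS T, a = expo T ∘ τ := by
  have hl : ∀ c, a (T (Sum.inl c)) % 2 = 0 := by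
    intro c
    have := hpar (T (Sum.inl c))
    simp only [expo, Equiv.symm_apply_apply, Sum.elim_inl] at this
    omega
  have hr : ∀ c, a (T (Sum.inr c)) % 2 = 1 := by
    intro c
    have := hpar (T (Sum.inr c))
    simp only [expo, Equiv.symm_apply_apply, Sum.elim_inr] at this
    omega
  have hL : ∀ c, a (T (Sum.inl c)) / 2 < p.1.1.colLen c.1.2 := by
    intro c
    refine filling_lt p.1.1 (fun c => a (T (Sum.inl c)) / 2) ?_ ?_ c
    · intro r
      rw [← (ha r).1]
      refine Finset.card_bij (fun c _ => T (Sum.inl c)) ?_ ?_ ?_
      · intro c hc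
        rw [Finset.mem_filter] at hc ⊢
        refine ⟨Finset.mem_univ _, ?_⟩
        have := hl c
        omega
      · intro c _ d _ h
        simpa using T.injective h
      · intro i hi
        rw [Finset.mem_filter] at hi
        rcases h : T.symm i with c | c
        · refine ⟨c, ?_, by rw [← h]; simp⟩
          rw [Finset.mem_filter]
          refine ⟨Finset.mem_univ _, ?_⟩
          rw [← h, Equiv.apply_symm_apply]
          omega
        · have h1 := hr c
          rw [← h, Equiv.apply_symm_apply] at h1
          omega
    · intro c d hcd h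
      have h1 := hinj (T (Sum.inl c)) (T (Sum.inl d)) (by simp [colOf, hcd]) (by
        have := hl c
        have := hl d
        have h' : a (T (Sum.inl c)) / 2 = a (T (Sum.inl d)) / 2 := h
        omega)
      simpa using h1
  have hR : ∀ c, a (T (Sum.inr c)) / 2 < p.1.2.colLen c.1.2 := by
    intro c
    refine filling_lt p.1.2 (fun c => a (T (Sum.inr c)) / 2) ?_ ?_ c
    · intro r
      rw [← (ha r).2]
      refine Finset.card_bij (fun c _ => T (Sum.inr c)) ?_ ?_ ?_
      · intro c hc
        rw [Finset.mem_filter] at hc ⊢
        refine ⟨Finset.mem_univ _, ?_⟩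
        have := hr c
        omega
      · intro c _ d _ h
        simpa using T.injective h
      · intro i hi
        rw [Finset.mem_filter] at hi
        rcases h : T.symm i with c | c
        · have h1 := hl c
          rw [← h, Equiv.apply_symm_apply] at h1
          omega
        · refine ⟨c, ?_, by rw [← h]; simp⟩
          rw [Finset.mem_filter]
          refine ⟨Finset.mem_univ _, ?_⟩
          rw [← h, Equiv.apply_symm_apply]
          omega
    · intro c d hcd h
      have h1 := hinj (T (Sum.inr c)) (T (Sum.inr d)) (by simp [colOf, hcd]) (by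
        have := hr c
        have := hr d
        have h' : a (T (Sum.inr c)) / 2 = a (T (Sum.inr d)) / 2 := h
        omega)
      simpa using h1
  -- the permutation
  let g : {c // c ∈ p.1.1.cells} ⊕ {c // c ∈ p.1.2.cells} →
      {c // c ∈ p.1.1.cells} ⊕ {c // c ∈ p.1.2.cells} := fun x =>
    match x with
    | Sum.inl c => Sum.inl ⟨(a (T (Sum.inl c)) / 2, c.1.2),
        YoungDiagram.mem_iff_lt_colLen.2 (hL c)⟩
    | Sum.inr c => Sum.inr ⟨(a (T (Sum.inr c)) / 2, c.1.2),
        YoungDiagram.mem_iff_lt_colLen.2 (hR c)⟩
  let t : Fin n → Fin n := fun i => T (g (T.symm i))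
  have hcol : ∀ i, colOf T (t i) = colOf T i := by
    intro i
    simp only [t, colOf, Equiv.symm_apply_apply]
    rcases h : T.symm i with c | c <;> simp [g]
  have hexp : ∀ i, expo T (t i) = a i := by
    intro i
    simp only [t, expo, Equiv.symm_apply_apply]
    rcases h : T.symm i with c | c
    · have h1 := hl c
      have h2 : T (Sum.inl c) = i := by rw [← h]; simp
      rw [h2] at h1
      simp only [g, Sum.elim_inl, h2]
      omega
    · have h1 := hr c
      have h2 : T (Sum.inr c) = i := by rw [← h]; simp
      rw [h2] at h1
      simp only [g, Sum.elim_inr, h2]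
      omega
  have htinj : Function.Injective t := by
    intro i j hij
    apply hinj
    · rw [← hcol i, hij, hcol j]
    · rw [← hexp i, hij, hexp j]
  refine ⟨Equiv.ofBijective t (Finite.injective_iff_bijective.1 htinj), ?_, ?_⟩
  · rw [mem_CS]
    exact hcol
  · ext i
    exact (hexp i).symm

end

end Pool.Agent.Saxl
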