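import Mathlib
import Pool.Agent.Helper83.Saxl.Irr

namespace Pool.Agent.Saxl

open scoped TensorProduct
open MvPolynomial

noncomputable section

variable {n : ℕ}

theorem sum_units_pow (x : ℕ) : ∑ u : ℤˣ, ((u : ℤ) : ℂ) ^ x = 1 + (-1) ^ x := by
  rw [UnitsInt.univ, Finset.sum_pair (by decide)]
  simp

theorem sum_signs (x : Fin n → ℕ) :
    ∑ e : Fin n → ℤˣ, ∏ i, ((e i : ℤ) : ℂ) ^ x i = ∏ i, (1 + (-1 : ℂ) ^ x i) := by
  have h := Finset.prod_univ_sum (fun _ : Fin n => (Finset.univ : Finset ℤˣ))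
    (fun i u => ((u : ℤ) : ℂ) ^ x i)
  rw [Fintype.piFinset_univ] at h
  rw [← h]
  exact Finset.prod_congr rfl fun i _ => sum_units_pow _

/-- antisymmetriser attached to a bitableau -/
def KT {p : Bip n} (T : Tab p) : Module.End ℂ (MvPolynomial (Fin n) ℂ) :=
  ∑ σ ∈ CS T, ∑ e : Fin n → ℤˣ,
    (((Equiv.Perm.sign σ : ℤ) : ℂ) * ∏ i, ((e i : ℤ) : ℂ) ^ expo T i) •
      polyRep n (⟨e, σ⟩ : W n)

theorem cf_KT {p : Bip n} (T : Tab p) (a : Fin n → ℕ) (u : MvPolynomial (Fin n) ℂ) :
    cf a (KT T u) = (∏ i, (1 + (-1 : ℂ) ^ (expo T i + a i))) *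
      ∑ σ ∈ CS T, ((Equiv.Perm.sign σ : ℤ) : ℂ) * cf (a ∘ σ) u := by
  rw [← sum_signs, KT]
  simp only [LinearMap.sum_apply, LinearMap.smul_apply, map_sum, map_smul, smul_eq_mul,
    cf_polyRep]
  rw [Finset.mul_sum]
  refine Finset.sum_congr rfl fun σ _ => ?_
  rw [Finset.sum_mul]
  refine Finset.sum_congr rfl fun e _ => ?_
  simp only [pow_add, Finset.prod_mul_distrib]
  ring

theorem expo_inj {p : Bip n} (T : Tab p) {i j : Fin n} (h1 : colOf T i = colOf T j)
    (h2 : expo T i = expo T j) : i = j := by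
  apply T.symm.injective
  unfold colOf at h1
  unfold expo at h2
  rcases hi : T.symm i with c | c <;> rcases hj : T.symm j with d | d <;> rw [hi, hj] at h1 h2 <;>
    simp only [Sum.map_inl, Sum.map_inr, Sum.elim_inl, Sum.elim_inr, Sum.inl.injEq,
      Sum.inr.injEq, reduceCtorEq] at h1 h2
  · congr 1
    exact Subtype.ext (Prod.ext (by omega) h1)
  · congr 1
    exact Subtype.ext (Prod.ext (by omega) h1)

theorem sum_swap_zero {p : Bip n} (T : Tab p) (a : Fin n → ℕ) (u : MvPolynomial (Fin n) ℂ)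
    (i j : Fin n) (hij : colOf T i = colOf T j) (ha : a i = a j) (hne : i ≠ j) :
    ∑ σ ∈ CS T, ((Equiv.Perm.sign σ : ℤ) : ℂ) * cf (a ∘ σ) u = 0 := by
  have ha0 : a ∘ Equiv.swap i j = a := by
    ext x
    simp only [Function.comp_apply, Equiv.swap_apply_def]
    split_ifs with h1 h2
    · rw [h1, ha]
    · rw [h2, ha]
    · rfl
  have hcolb : ∀ x, colOf T (Equiv.swap i j x) = colOf T x := by
    intro x
    simp only [Equiv.swap_apply_def]
    split_ifs with h1 h2
    · rw [h1, hij]
    · rw [h2, hij]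
    · rfl
  refine Finset.sum_involution (fun τ _ => Equiv.swap i j * τ) ?_ ?_ ?_ ?_
  · intro τ _
    have h1 : a ∘ (Equiv.swap i j * τ : Equiv.Perm (Fin n)) = a ∘ τ := by
      rw [Equiv.Perm.coe_mul, ← Function.comp_assoc, ha0]
    rw [h1, Equiv.Perm.sign_mul, Equiv.Perm.sign_swap hne]
    push_cast
    ring
  · intro τ _ _ h
    apply hne
    have h1 : Equiv.swap i j = 1 := mul_eq_right.1 h
    exact (Equiv.swap_eq_one_iff).1 h1
  · intro τ hτ
    rw [mem_CS] at hτ ⊢
    intro x
    rw [Equiv.Perm.mul_apply, hcolb, hτ]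
  · intro τ _
    rw [← mul_assoc, Equiv.swap_mul_self, one_mul]

/-- what a non-zero coefficient of `KT T u` tells -/
theorem data_of_KT {p q : Bip n} (T : Tab p) {u : MvPolynomial (Fin n) ℂ}
    (hu : u ∈ (spe q).toSubmodule) (a : Fin n → ℕ) (h : cf a (KT T u) ≠ 0) :
    HasContent q a ∧ (∀ i, (expo T i + a i) % 2 = 0) ∧
      ∀ i j, colOf T i = colOf T j → a i = a j → i = j := by
  rw [cf_KT] at h
  have h1 := left_ne_zero_of_mul h
  have h2 := right_ne_zero_of_mul h
  refine ⟨?_, ?_, ?_⟩
  · obtain ⟨σ, _, hσ⟩ := Finset.exists_ne_zero_of_sum_ne_zero h2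
    exact hasContent_comp σ (hasContent_of_cf hu _ (right_ne_zero_of_mul hσ))
  · intro i
    rw [Finset.prod_ne_zero_iff] at h1
    have h3 := h1 i (Finset.mem_univ i)
    by_contra hcon
    apply h3
    have : Odd (expo T i + a i) := by rw [Nat.odd_iff]; omega
    rw [this.neg_one_pow]
    ring
  · intro i j hij ha
    by_contra hne
    exact h2 (sum_swap_zero T a u i j hij ha hne)

theorem inv_mem_CS {p : Bip n} {T : Tab p} {σ : Equiv.Perm (Fin n)} (h : σ ∈ CS T) :
    σ⁻¹ ∈ CS T := by
  rw [mem_CS] at h ⊢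
  intro i
  have := h (σ.symm i)
  rw [Equiv.apply_symm_apply] at this
  exact this.symm

theorem mul_mem_CS {p : Bip n} {T : Tab p} {σ τ : Equiv.Perm (Fin n)} (h : σ ∈ CS T)
    (h' : τ ∈ CS T) : σ * τ ∈ CS T := by
  rw [mem_CS] at h h' ⊢
  intro i
  rw [Equiv.Perm.mul_apply, h, h']

theorem cf_spechtPoly_expo {p : Bip n} (T : Tab p) {τ : Equiv.Perm (Fin n)} (hτ : τ ∈ CS T) :
    cf (expo T ∘ τ) (spechtPoly T) = ((Equiv.Perm.sign τ : ℤ) : ℂ) := by
  rw [cf_spechtPoly, Finset.sum_eq_single τ⁻¹]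
  · rw [if_pos]
    · simp
    · ext i; simp
  · intro σ hσ hne
    rw [if_neg, mul_zero]
    intro h
    apply hne
    rw [eq_inv_iff_mul_eq_one]
    have h1 : τ * σ = 1 := by
      ext i
      rw [Equiv.Perm.one_apply]
      congr 1
      apply expo_inj T
      · exact (mem_CS.1 (mul_mem_CS hτ hσ)) i
      · exact congrFun h i
    have h2 : σ * τ = 1 := by
      rw [← mul_eq_one_comm (a := τ)] at *
      exact h1
    exact h2
  · intro h
    exact absurd (inv_mem_CS hτ) h

theorem cf_spechtPoly_zero {p : Bip n} (T : Tab p) (a : Fin n → ℕ)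
    (h : ¬ ∃ τ ∈ CS T, a = expo T ∘ τ) : cf a (spechtPoly T) = 0 := by
  rw [cf_spechtPoly]
  refine Finset.sum_eq_zero fun σ hσ => ?_
  rw [if_neg, mul_zero]
  intro h'
  apply h
  refine ⟨σ⁻¹, inv_mem_CS hσ, ?_⟩
  rw [← h']
  ext i; simp

theorem KT_eq {p : Bip n} (T : Tab p) {u : MvPolynomial (Fin n) ℂ}
    (hu : u ∈ (spe p).toSubmodule) : KT T u = ((2 : ℂ) ^ n * LT T u) • spechtPoly T := by
  ext m
  rw [← ex_coe m, ← cf_apply, ← cf_apply, map_smul, smul_eq_mul]
  set a : Fin n → ℕ := fun i => m i with ha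
  by_cases h : ∃ τ ∈ CS T, a = expo T ∘ τ
  · obtain ⟨τ, hτ, haτ⟩ := h
    rw [haτ, cf_spechtPoly_expo T hτ, cf_KT]
    have h1 : ∏ i, (1 + (-1 : ℂ) ^ (expo T i + (expo T ∘ τ) i)) = 2 ^ n := by
      rw [Finset.prod_eq_pow_card (b := 2)]
      · simp
      · intro i _
        have h2 : (expo T i + (expo T ∘ τ) i) % 2 = 0 := by
          have := expo_parity T ((mem_CS.1 hτ) i)
          simp only [Function.comp_apply]
          omega
        have h3 : Even (expo T i + (expo T ∘ τ) i) := Nat.even_iff.2 h2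
        rw [h3.neg_one_pow]
        norm_num
    rw [h1, mul_assoc]
    congr 1
    rw [LT, LinearMap.sum_apply, Finset.sum_mul]
    refine Finset.sum_bij (fun σ _ => (τ * σ)⁻¹) ?_ ?_ ?_ ?_
    · intro σ hσ
      exact inv_mem_CS (mul_mem_CS hτ hσ)
    · intro σ _ σ' _ h
      simpa using h
    · intro ρ hρ
      refine ⟨τ⁻¹ * ρ⁻¹, mul_mem_CS (inv_mem_CS hτ) (inv_mem_CS hρ), by group⟩
    · intro σ _
      rw [LinearMap.smul_apply, smul_eq_mul, Equiv.Perm.sign_inv, Equiv.Perm.sign_mul]
      have h2 : (expo T ∘ ((τ * σ)⁻¹ : Equiv.Perm (Fin n)).symm) = (expo T ∘ τ) ∘ σ := by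
        ext i; rfl
      rw [h2]
      have h3 := sq_sign (Equiv.Perm.sign τ)
      push_cast
      linear_combination -(((Equiv.Perm.sign σ : ℤ) : ℂ) * cf ((expo T ∘ τ) ∘ σ) u) * h3
  · rw [cf_spechtPoly_zero T a h, mul_zero]
    by_contra hne
    obtain ⟨h1, h2, h3⟩ := data_of_KT T hu a hne
    exact h (exists_perm_of_content T a h1 h2 h3)

theorem exists_tab (p : Bip n) : Nonempty (Tab p) := by
  apply Fintype.card_eq.1
  rw [Fintype.card_sum, Fintype.card_coe, Fintype.card_coe, Fintype.card_fin]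
  exact p.2

theorem one_mem_CS {p : Bip n} (T : Tab p) : (1 : Equiv.Perm (Fin n)) ∈ CS T := by
  rw [mem_CS]; intro i; rfl

theorem spechtPoly_ne_zero {p : Bip n} (T : Tab p) : spechtPoly T ≠ 0 := by
  intro h
  have h1 := cf_spechtPoly_expo T (one_mem_CS T)
  rw [h, map_zero] at h1
  simp at h1

theorem spechtPoly_mem {p : Bip n} (T : Tab p) : spechtPoly T ∈ (spe p).toSubmodule :=
  Submodule.subset_span ⟨T, rfl⟩

theorem LT_spechtPoly {p : Bip n} (T : Tab p) : LT T (spechtPoly T) ≠ 0 := by
  rw [LT, LinearMap.sum_apply]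
  have : ∀ σ ∈ CS T, (((Equiv.Perm.sign σ : ℤ) : ℂ) • cf (expo T ∘ σ.symm)) (spechtPoly T) =
      1 := by
    intro σ hσ
    rw [LinearMap.smul_apply, smul_eq_mul]
    have h1 := cf_spechtPoly_expo T (inv_mem_CS hσ)
    have h2 : (expo T ∘ σ.symm) = expo T ∘ (σ⁻¹ : Equiv.Perm (Fin n)) := rfl
    rw [h2, h1, Equiv.Perm.sign_inv]
    have h3 := sq_sign (Equiv.Perm.sign σ)
    rw [← h3]; ring
  rw [Finset.sum_congr rfl this, Finset.sum_const, nsmul_eq_mul, mul_one]
  have h0 : 0 < (CS T).card := Finset.card_pos.2 ⟨1, one_mem_CS T⟩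
  exact_mod_cast h0.ne'

/-- `KT T` inside the Specht module -/
theorem KT_mem {p q : Bip n} (T : Tab p) (U : Subrepresentation (spe q).toRepresentation)
    (u : (spe q).toSubmodule) (hu : u ∈ U.toSubmodule) :
    ∃ v ∈ U.toSubmodule, (v : MvPolynomial (Fin n) ℂ) = KT T u.1 := by
  refine ⟨∑ σ ∈ CS T, ∑ e : Fin n → ℤˣ,
    (((Equiv.Perm.sign σ : ℤ) : ℂ) * ∏ i, ((e i : ℤ) : ℂ) ^ expo T i) •
      (spe q).toRepresentation (⟨e, σ⟩ : W n) u, ?_, ?_⟩
  · refine Submodule.sum_mem _ fun σ _ => Submodule.sum_mem _ fun e _ =>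
      Submodule.smul_mem _ _ (U.apply_mem_toSubmodule _ hu)
  · simp only [KT, LinearMap.sum_apply, LinearMap.smul_apply, Submodule.coe_sum,
      Submodule.coe_smul]
    rfl

/-- The Specht modules are irreducible. -/
theorem spe_irreducible (p : Bip n) : (spe p).toRepresentation.IsIrreducible := by
  obtain ⟨T0⟩ := exists_tab p
  have hnt : Nontrivial (Subrepresentation (spe p).toRepresentation) := by
    refine ⟨⊥, ⊤, ?_⟩
    intro h
    have h1 : (⟨spechtPoly T0, spechtPoly_mem T0⟩ : (spe p).toSubmodule) ∈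
        (⊤ : Subrepresentation (spe p).toRepresentation).toSubmodule := Submodule.mem_top
    rw [← h] at h1
    have h2 := (Submodule.mem_bot ℂ).1 h1
    exact spechtPoly_ne_zero T0 (congrArg Subtype.val h2)
  refine { hnt with eq_bot_or_eq_top := fun U => ?_ }
  by_cases hU : ∀ u ∈ U.toSubmodule, u = 0
  · left
    apply Subrepresentation.toSubmodule_injective
    exact (Submodule.eq_bot_iff _).2 hU
  · right
    push Not at hU
    obtain ⟨u, huU, hu0⟩ := hU
    obtain ⟨T, hT⟩ := exists_LT_ne_zero u.2 (fun h => hu0 (Subtype.ext h))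
    obtain ⟨v, hv, hvK⟩ := KT_mem T U u huU
    rw [KT_eq T u.2] at hvK
    have hc : (2 : ℂ) ^ n * LT T u.1 ≠ 0 := mul_ne_zero (pow_ne_zero _ two_ne_zero) hT
    have h1 : (⟨spechtPoly T, spechtPoly_mem T⟩ : (spe p).toSubmodule) ∈ U.toSubmodule := by
      have h2 : (⟨spechtPoly T, spechtPoly_mem T⟩ : (spe p).toSubmodule) =
          ((2 : ℂ) ^ n * LT T u.1)⁻¹ • v := by
        apply Subtype.ext
        rw [Submodule.coe_smul, hvK, smul_smul, inv_mul_cancel₀ hc, one_smul]
      rw [h2]
      exact Submodule.smul_mem _ _ hv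
    have h3 : ∀ T' : Tab p,
        (⟨spechtPoly T', spechtPoly_mem T'⟩ : (spe p).toSubmodule) ∈ U.toSubmodule := by
      intro T'
      have h4 := U.apply_mem_toSubmodule
        (SemidirectProduct.inr (T.symm.trans T' : Equiv.Perm (Fin n)) : W n) h1
      have h5 : (spe p).toRepresentation
          (SemidirectProduct.inr (T.symm.trans T' : Equiv.Perm (Fin n)) : W n)
          ⟨spechtPoly T, spechtPoly_mem T⟩ = ⟨spechtPoly T', spechtPoly_mem T'⟩ := by
        apply Subtype.ext
        change polyRep n _ (spechtPoly T) = spechtPoly T'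
        rw [polyRep_spechtPoly]
        have h6 : permTab T (SemidirectProduct.inr (T.symm.trans T' : Equiv.Perm (Fin n)) : W n).right
            = T' := by
          ext x
          simp [permTab]
        rw [h6]
        simp
      rwa [h5] at h4
    have key : ∀ (x : MvPolynomial (Fin n) ℂ) (hx : x ∈ (spe p).toSubmodule),
        (⟨x, hx⟩ : (spe p).toSubmodule) ∈ U.toSubmodule := by
      intro x hx
      induction hx using Submodule.span_induction with
      | mem x hx =>
        obtain ⟨T', rfl⟩ := hx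
        exact h3 T'
      | zero => exact Submodule.zero_mem _
      | add x y hx' hy' hx hy => exact Submodule.add_mem _ hx hy
      | smul a x hx' hx => exact Submodule.smul_mem _ a hx
    apply Subrepresentation.toSubmodule_injective
    change U.toSubmodule = ⊤
    rw [eq_top_iff]
    rintro ⟨x, hx⟩ _
    exact key x hx

theorem dom_of_same {p q : Bip n} (T : Tab p) (a : Fin n → ℕ) (ha : HasContent q a)
    (hpar : ∀ i, (expo T i + a i) % 2 = 0)
    (hinj : ∀ i j, colOf T i = colOf T j → a i = a j → i = j) :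
    Dom q.1.1 p.1.1 ∧ Dom q.1.2 p.1.2 := by
  have hl : ∀ c, a (T (Sum.inl c)) % 2 = 0 := by
    intro c
    have := hpar (T (Sum.inl c))
    simp only [expo, Equiv.symm_apply_apply, Sum.elim_inl] at this
    omega
  have hr : ∀ c, a (T (Sum.inr c)) % 2 = 1 := by
    intro c
    have := hpar (T (Sum.inr c))
    simp only [expo, Equiv.symm_apply_apply, Sum.elim_inr] at this
    omega
  constructor
  · refine dom_of_filling _ _ (fun c => a (T (Sum.inl c)) / 2) ?_ ?_
    · intro r
      rw [← (ha r).1]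
      refine Finset.card_bij (fun c _ => T (Sum.inl c)) ?_ ?_ ?_
      · intro c hc
        rw [Finset.mem_filter] at hc ⊢
        refine ⟨Finset.mem_univ _, ?_⟩
        have := hl c
        omega
      · intro c _ d _ h
        simpa using T.injective h
      · intro i hi
        rw [Finset.mem_filter] at hi
        rcases h : T.symm i with c | c
        · refine ⟨c, ?_, by rw [← h]; simp⟩
          rw [Finset.mem_filter]
          refine ⟨Finset.mem_univ _, ?_⟩
          rw [← h, Equiv.apply_symm_apply]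
          omega
        · have h1 := hr c
          rw [← h, Equiv.apply_symm_apply] at h1
          omega
    · intro c d hcd h
      have h1 := hinj (T (Sum.inl c)) (T (Sum.inl d)) (by simp [colOf, hcd]) (by
        have := hl c
        have := hl d
        have h' : a (T (Sum.inl c)) / 2 = a (T (Sum.inl d)) / 2 := h
        omega)
      simpa using h1
  · refine dom_of_filling _ _ (fun c => a (T (Sum.inr c)) / 2) ?_ ?_
    · intro r
      rw [← (ha r).2]
      refine Finset.card_bij (fun c _ => T (Sum.inr c)) ?_ ?_ ?_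
      · intro c hc
        rw [Finset.mem_filter] at hc ⊢
        refine ⟨Finset.mem_univ _, ?_⟩
        have := hr c
        omega
      · intro c _ d _ h
        simpa using T.injective h
      · intro i hi
        rw [Finset.mem_filter] at hi
        rcases h : T.symm i with c | c
        · have h1 := hl c
          rw [← h, Equiv.apply_symm_apply] at h1
          omega
        · refine ⟨c, ?_, by rw [← h]; simp⟩
          rw [Finset.mem_filter]
          refine ⟨Finset.mem_univ _, ?_⟩
          rw [← h, Equiv.apply_symm_apply]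
          omega
    · intro c d hcd h
      have h1 := hinj (T (Sum.inr c)) (T (Sum.inr d)) (by simp [colOf, hcd]) (by
        have := hr c
        have := hr d
        have h' : a (T (Sum.inr c)) / 2 = a (T (Sum.inr d)) / 2 := h
        omega)
      simpa using h1

theorem dom_of_intertwining {p q : Bip n}
    (f : (spe p).toSubmodule →ₗ[ℂ] (spe q).toSubmodule)
    (hf : ∀ g u, f ((spe p).toRepresentation g u) = (spe q).toRepresentation g (f u))
    (hinj : Function.Injective f) : Dom q.1.1 p.1.1 ∧ Dom q.1.2 p.1.2 := by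
  obtain ⟨T⟩ := exists_tab p
  have hK : ∀ u : (spe p).toSubmodule, ∀ v : (spe p).toSubmodule,
      (v : MvPolynomial (Fin n) ℂ) = KT T u.1 →
        ((f v : (spe q).toSubmodule) : MvPolynomial (Fin n) ℂ) = KT T (f u).1 := by
    intro u v hv
    have h1 : v = ∑ σ ∈ CS T, ∑ e : Fin n → ℤˣ,
        (((Equiv.Perm.sign σ : ℤ) : ℂ) * ∏ i, ((e i : ℤ) : ℂ) ^ expo T i) •
          (spe p).toRepresentation (⟨e, σ⟩ : W n) u := by
      apply Subtype.ext
      rw [hv]
      simp only [KT, LinearMap.sum_apply, LinearMap.smul_apply, Submodule.coe_sum,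
        Submodule.coe_smul]
      rfl
    rw [h1]
    simp only [map_sum, map_smul, hf, KT, LinearMap.sum_apply, LinearMap.smul_apply,
      Submodule.coe_sum, Submodule.coe_smul]
    rfl
  set P : (spe p).toSubmodule := ⟨spechtPoly T, spechtPoly_mem T⟩ with hP
  have h1 := hK P (((2 : ℂ) ^ n * LT T P.1) • P) (by
    rw [KT_eq T P.2]; rfl)
  have hc : (2 : ℂ) ^ n * LT T P.1 ≠ 0 := mul_ne_zero (pow_ne_zero _ two_ne_zero) (LT_spechtPoly T)
  have h2 : KT T (f P).1 ≠ 0 := by
    rw [← h1, map_smul, Submodule.coe_smul]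
    refine smul_ne_zero hc ?_
    intro h
    have h3 : f P = 0 := Subtype.ext h
    have h4 : P = 0 := hinj (by rw [h3, map_zero])
    exact spechtPoly_ne_zero T (congrArg Subtype.val h4)
  obtain ⟨m, hm⟩ := MvPolynomial.support_nonempty.2 h2
  rw [mem_support_iff, ← ex_coe m, ← cf_apply] at hm
  obtain ⟨d1, d2, d3⟩ := data_of_KT T (f P).2 _ hm
  exact dom_of_same T _ d1 d2 d3

/-- The Specht modules of different bipartitions are not isomorphic. -/
theorem spe_hom_zero {p q : Bip n} (hpq : p ≠ q)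
    (f : Representation.IntertwiningMap (spe p).toRepresentation (spe q).toRepresentation) :
    f = 0 := by
  have := spe_irreducible p
  have := spe_irreducible q
  rcases Representation.IsIrreducible.bijective_or_eq_zero f with h | h
  · exfalso
    apply hpq
    have hf : ∀ g u, f.toLinearMap ((spe p).toRepresentation g u) =
        (spe q).toRepresentation g (f.toLinearMap u) := fun g u =>
      congrArg (fun l => l u) (f.isIntertwining' g)
    have d1 := dom_of_intertwining f.toLinearMap hf h.1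
    let F := LinearEquiv.ofBijective f.toLinearMap h
    have hF : ∀ g u, F.symm ((spe q).toRepresentation g u) =
        (spe p).toRepresentation g (F.symm u) := by
      intro g u
      apply F.injective
      rw [LinearEquiv.apply_symm_apply]
      have := hf g (F.symm u)
      rw [show f.toLinearMap (F.symm u) = u from F.apply_symm_apply u] at this
      exact this.symm
    have d2 := dom_of_intertwining F.symm.toLinearMap hF F.symm.injective
    exact Subtype.ext (Prod.ext (eq_of_dom d2.1 d1.1) (eq_of_dom d2.2 d1.2))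
  · exact h

end

end Pool.Agent.Saxl
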