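import Mathlib
import Pool.Agent.Helper83.Saxl.Comb

namespace Pool.Agent.Saxl

theorem card_eq_sum (μ : YoungDiagram) (t : ℕ) (h : μ.rowLen t = 0) :
    μ.card = ∑ i ∈ Finset.range t, μ.rowLen i := by
  rw [sum_rowLen_eq, Finset.filter_true_of_mem]
  · rw [Finset.card_univ, Fintype.card_coe]
  · rintro ⟨⟨i, j⟩, hc⟩ _
    rw [YoungDiagram.mem_cells, YoungDiagram.mem_iff_lt_rowLen] at hc
    by_contra hcon
    have := μ.rowLen_anti t i (by simpa using hcon)
    omega

theorem mult_eq (μ : YoungDiagram) (t p : ℕ) (h : μ.rowLen t = 0) (hp : 0 < p) :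
    mult μ p = ((Finset.range t).filter fun i => μ.rowLen i = p).card := by
  have h1 : mult μ p = ((Finset.range (μ.colLen 0)).filter fun i => μ.rowLen i = p).card := by
    unfold mult YoungDiagram.rowLens
    rw [List.count, List.countP_map]
    have : ∀ (N : ℕ) (P : ℕ → Prop) [DecidablePred P],
        List.countP (fun i => decide (P i)) (List.range N) =
          ((Finset.range N).filter P).card := by
      intro N P _
      rw [List.countP_eq_length_filter]
      rfl
    rw [← this]
    congr 1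
  rw [h1]
  congr 1
  ext i
  simp only [Finset.mem_filter, Finset.mem_range]
  constructor
  · rintro ⟨_, h2⟩
    refine ⟨?_, h2⟩
    by_contra hcon
    have := μ.rowLen_anti t i (by omega)
    omega
  · rintro ⟨_, h2⟩
    refine ⟨?_, h2⟩
    rw [← YoungDiagram.mem_iff_lt_colLen, YoungDiagram.mem_iff_lt_rowLen]
    omega

theorem OO_last {k : ℕ} : (OO k).rowLen (2 * k - 1) = 0 := by
  rw [rowLen_OO]; simp [fO]

theorem DD_last {k : ℕ} (hk : 2 ≤ k) : (DD k).rowLen (2 * k - 1) = 0 := by
  rw [rowLen_DD _ hk]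
  unfold fD
  rw [if_neg (by omega)]
  omega

theorem card_OO {k n : ℕ} (hk : 2 ≤ k) (hn : n + 1 = k ^ 2) : (OO k).card = 2 * n + 1 := by
  rw [card_eq_sum _ _ OO_last]
  simp only [rowLen_OO]
  have h := (sumO k (k - 1) (by omega)).2
  obtain ⟨l, rfl⟩ : ∃ l, k = l + 1 := ⟨k - 1, by omega⟩
  rw [show l + 1 - 1 = l by omega] at h
  rw [show 2 * (l + 1) - 1 = 2 * l + 1 by omega]
  have h2 : (l + 1) ^ 2 = l ^ 2 + 2 * l + 1 := by ring
  have h3 : 4 * l * (l + 1) = 4 * l ^ 2 + 4 * l := by ring
  omega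

theorem card_DD {k n : ℕ} (hk : 2 ≤ k) (hn : n + 1 = k ^ 2) : (DD k).card = 2 * n + 1 := by
  rw [card_eq_sum _ _ (DD_last hk)]
  simp only [fun i => rowLen_DD (k := k) i hk]
  have h := (sumD k (k - 1) (by omega)).2
  obtain ⟨l, rfl⟩ : ∃ l, k = l + 1 := ⟨k - 1, by omega⟩
  rw [show l + 1 - 1 = l by omega] at h
  rw [show 2 * (l + 1) - 1 = 2 * l + 1 by omega]
  have h2 : (l + 1) ^ 2 = l ^ 2 + 2 * l + 1 := by ring
  have h3 : 4 * l * (l + 1) = 4 * l ^ 2 + 4 * l := by ring
  omega

theorem solv_OO {k n : ℕ} (hk : 2 ≤ k) (hn : n + 1 = k ^ 2) : IsSolvable n (OO k) := by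
  have hev : ∀ p, 0 < p → Even p → mult (OO k) p = 0 := by
    intro p hp ⟨r, hr⟩
    rw [mult_eq _ _ _ OO_last hp, Finset.card_eq_zero, Finset.filter_eq_empty_iff]
    intro i hi
    rw [Finset.mem_range] at hi
    rw [rowLen_OO]
    unfold fO
    rw [if_pos hi]
    omega
  refine ⟨⟨card_OO hk hn, fun p hp he => ?_⟩, fun p hp => ⟨hev p hp, ?_⟩⟩
  · rw [hev p hp he]; exact Even.zero
  · rintro ⟨r, hr⟩
    rw [mult_eq _ _ _ OO_last hp]
    calc _ ≤ ({2 * (k - 1 - r), 2 * (k - 1 - r) + 1} : Finset ℕ).card := by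
          apply Finset.card_le_card
          intro i hi
          rw [Finset.mem_filter, Finset.mem_range, rowLen_OO] at hi
          unfold fO at hi
          rw [if_pos hi.1] at hi
          rw [Finset.mem_insert, Finset.mem_singleton]
          omega
      _ ≤ 2 := Finset.card_le_two

theorem orbit_DD {k n : ℕ} (hk : 2 ≤ k) (hn : n + 1 = k ^ 2) : IsOrbit n (DD k) := by
  refine ⟨card_DD hk hn, ?_⟩
  rintro p hp ⟨r, hr⟩
  rw [mult_eq _ _ _ (DD_last hk) hp]
  by_cases h : r < k
  · have : ((Finset.range (2 * k - 1)).filter fun i => (DD k).rowLen i = p) =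
        {2 * (k - r) - 1, 2 * (k - r)} := by
      ext i
      rw [Finset.mem_filter, Finset.mem_range, rowLen_DD _ hk, Finset.mem_insert,
        Finset.mem_singleton]
      unfold fD
      split_ifs <;> omega
    rw [this, Finset.card_pair (by omega)]
    exact even_two
  · have : ((Finset.range (2 * k - 1)).filter fun i => (DD k).rowLen i = p) = ∅ := by
      rw [Finset.filter_eq_empty_iff]
      intro i hi
      rw [Finset.mem_range] at hi
      rw [rowLen_DD _ hk]
      unfold fD
      split_ifs <;> omega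
    rw [this]
    exact ⟨0, rfl⟩

theorem transpose_OO {k : ℕ} (hk : 2 ≤ k) : (OO k).transpose = DD k := by
  apply YoungDiagram.ext
  ext ⟨i, j⟩
  rw [YoungDiagram.mem_cells, YoungDiagram.mem_cells, YoungDiagram.mem_transpose]
  change (j, i) ∈ OO k ↔ _
  rw [YoungDiagram.mem_iff_lt_rowLen, YoungDiagram.mem_iff_lt_rowLen, rowLen_OO,
    rowLen_DD _ hk]
  unfold fO fD
  split_ifs <;> omega

theorem dual_OO {k n : ℕ} (hk : 2 ≤ k) (hn : n + 1 = k ^ 2) : IsDual n (OO k) (DD k) := by
  refine ⟨orbit_DD hk hn, ?_, ?_⟩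
  · rw [transpose_OO hk]; exact fun t => le_rfl
  · intro μ _ h
    rwa [transpose_OO hk] at h

/-- rows of a solvable orbit: odd or zero, and no three equal -/
theorem solv_rows {n : ℕ} {μ : YoungDiagram} (h : IsSolvable n μ) (i : ℕ) :
    (μ.rowLen i = 0 ∨ μ.rowLen i % 2 = 1) ∧
      (μ.rowLen (i + 2) = 0 ∨ μ.rowLen (i + 2) + 2 ≤ μ.rowLen i) := by
  have hz : μ.rowLen μ.card = 0 := by
    by_contra hne
    have := card_pos_rows μ _ (Nat.pos_of_ne_zero hne)
    omega
  have hodd : ∀ i, μ.rowLen i = 0 ∨ μ.rowLen i % 2 = 1 := by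
    intro i
    by_contra hcon
    have h0 : 0 < μ.rowLen i := by omega
    have he : Even (μ.rowLen i) := by
      rw [Nat.even_iff]; omega
    have h1 := (h.2 _ h0).1 he
    rw [mult_eq _ _ _ hz h0, Finset.card_eq_zero, Finset.filter_eq_empty_iff] at h1
    exact h1 (Finset.mem_range.2 (card_pos_rows μ i h0)) rfl
  refine ⟨hodd i, ?_⟩
  by_contra hcon
  have h0 : 0 < μ.rowLen (i + 2) := by omega
  have h1 := μ.rowLen_anti i (i + 1) (by omega)
  have h2 := μ.rowLen_anti (i + 1) (i + 2) (by omega)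
  have h3 := hodd i
  have h4 := hodd (i + 2)
  have h5 : μ.rowLen (i + 2) = μ.rowLen i := by omega
  have h6 : μ.rowLen (i + 1) = μ.rowLen i := by omega
  have h7 : Odd (μ.rowLen i) := by
    rw [Nat.odd_iff]; omega
  have h8 := (h.2 _ (by omega : 0 < μ.rowLen i)).2 h7
  rw [mult_eq _ _ _ hz (by omega)] at h8
  have h9 : ({i, i + 1, i + 2} : Finset ℕ) ⊆
      (Finset.range μ.card).filter fun l => μ.rowLen l = μ.rowLen i := by
    intro l hl
    rw [Finset.mem_filter, Finset.mem_range]
    simp only [Finset.mem_insert, Finset.mem_singleton] at hl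
    rcases hl with rfl | rfl | rfl
    · exact ⟨card_pos_rows μ _ (by omega), rfl⟩
    · exact ⟨card_pos_rows μ _ (by omega), h6⟩
    · exact ⟨card_pos_rows μ _ (by omega), h5⟩
  have h10 := Finset.card_le_card h9
  rw [Finset.card_eq_three.2 ⟨i, i + 1, i + 2, by omega, by omega, by omega, rfl⟩] at h10
  omega

theorem min_OO {k n : ℕ} (hk : 2 ≤ k) (hn : n + 1 = k ^ 2) (μ : YoungDiagram)
    (hμ : IsSolvable n μ) : Dom (OO k) μ := by
  intro t
  simp only [rowLen_OO]
  induction t with
  | zero => simp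
  | succ t ih =>
    by_contra hcon
    push Not at hcon
    rw [Finset.sum_range_succ, Finset.sum_range_succ] at hcon
    have hlt : μ.rowLen t < fO k t := by omega
    have hr := fun i => solv_rows hμ i
    have claim : ∀ s, μ.rowLen (t + 2 * s) = 0 ∨ μ.rowLen (t + 2 * s) + 2 ≤ fO k (t + 2 * s) := by
      intro s
      induction s with
      | zero =>
        have h1 := (hr t).1
        rw [mul_zero, add_zero]
        unfold fO at hlt ⊢
        split_ifs at hlt ⊢
        · omega
        · omega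
      | succ s ih =>
        have h1 := (hr (t + 2 * s)).2
        have h2 := (hr (t + 2 * (s + 1))).1
        rw [show t + 2 * (s + 1) = t + 2 * s + 2 by ring] at h2 ⊢
        unfold fO at ih ⊢
        split_ifs at ih ⊢ <;> omega
    have claim2 : ∀ s, μ.rowLen (t + s) ≤ fO k (t + s) := by
      intro s
      rcases Nat.even_or_odd' s with ⟨u, rfl | rfl⟩
      · rcases claim u with h | h <;> omega
      · have h1 := claim u
        have h2 := μ.rowLen_anti (t + 2 * u) (t + (2 * u + 1)) (by omega)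
        unfold fO at h1 ⊢
        split_ifs at h1 ⊢ <;> omega
    -- compare totals
    set T := max (t + 1) (max μ.card (2 * k - 1)) with hT
    have hz : μ.rowLen T = 0 := by
      by_contra hne
      have := card_pos_rows μ _ (Nat.pos_of_ne_zero hne)
      omega
    have hzO : (OO k).rowLen T = 0 := by
      have := (OO k).rowLen_anti (2 * k - 1) T (by omega)
      rw [OO_last] at this
      omega
    have c1 := card_eq_sum μ T hz
    have c2 := card_eq_sum (OO k) T hzO
    simp only [rowLen_OO] at c2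
    rw [card_OO hk hn] at c2
    rw [hμ.1.1] at c1
    have c3 : ∀ g : ℕ → ℕ, ∑ i ∈ Finset.range T, g i =
        ∑ i ∈ Finset.range (t + 1), g i + ∑ i ∈ Finset.range (T - (t + 1)), g (t + 1 + i) := by
      intro g
      rw [← Finset.sum_range_add]
      congr 2
      omega
    rw [c3] at c1 c2
    have c4 : ∑ i ∈ Finset.range (T - (t + 1)), μ.rowLen (t + 1 + i) ≤
        ∑ i ∈ Finset.range (T - (t + 1)), fO k (t + 1 + i) := by
      refine Finset.sum_le_sum fun i _ => ?_
      have := claim2 (1 + i)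
      rwa [← add_assoc] at this
    rw [Finset.sum_range_succ] at c1 c2
    omega

theorem minSolvable_OO {k n : ℕ} (hk : 2 ≤ k) (hn : n + 1 = k ^ 2) : IsMinSolvable n (OO k) :=
  ⟨solv_OO hk hn, fun μ hμ => min_OO hk hn μ hμ⟩

theorem minSolvable_unique {n : ℕ} {O O' : YoungDiagram} (h : IsMinSolvable n O)
    (h' : IsMinSolvable n O') : O = O' :=
  eq_of_dom (h.2 _ h'.1) (h'.2 _ h.1)

theorem dual_unique {n : ℕ} {O D D' : YoungDiagram} (h : IsDual n O D) (h' : IsDual n O D') :
    D = D' :=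
  eq_of_dom (h'.2.2 _ h.1 h.2.1) (h.2.2 _ h'.1 h'.2.1)

end Pool.Agent.Saxl
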