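import Mathlib
import Pool.Agent.Helper83.Saxl.Orb
import Pool.Agent.Helper83.Saxl.Irr2

namespace Pool.Agent.Saxl

open scoped TensorProduct
open MvPolynomial

noncomputable section

/-! ### An element of the index set -/

/-- rows of `ξ` -/
def fX (k i : ℕ) : ℕ := k - 1 - i

/-- rows of `η` -/
def fE (k i : ℕ) : ℕ := if i < k - 1 then k - i else 0

theorem fX_anti (k : ℕ) : Antitone (fX k) := by
  intro i j hij
  unfold fX
  omega

theorem fE_anti (k : ℕ) : Antitone (fE k) := by
  intro i j hij
  unfold fE
  split_ifs <;> omega

theorem sumX (k : ℕ) : ∀ j, j + 1 ≤ k → 2 * ∑ i ∈ Finset.range j, fX k i + j ^ 2 + j = 2 * j * k := by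
  intro j
  induction j with
  | zero => simp
  | succ j ih =>
    intro hj
    have h1 := ih (by omega)
    rw [Finset.sum_range_succ]
    have h2 : fX k j + j + 1 = k := by unfold fX; omega
    nlinarith

theorem sumE (k : ℕ) : ∀ j, j + 1 ≤ k → 2 * ∑ i ∈ Finset.range j, fE k i + j ^ 2 = 2 * j * k + j := by
  intro j
  induction j with
  | zero => simp
  | succ j ih =>
    intro hj
    have h1 := ih (by omega)
    rw [Finset.sum_range_succ]
    have h2 : fE k j + j = k := by
      unfold fE
      rw [if_pos (by omega)]
      omega
    nlinarith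

theorem exists_inSigma {k n : ℕ} (hk : 2 ≤ k) (hn : n + 1 = k ^ 2) :
    ∃ p : Bip n, InSigma (OO k) (DD k) p := by
  have hkn : k ≤ n := by nlinarith
  let ξ := ofAnti (fX k) (fX_anti k) (k - 1)
  let η := ofAnti (fE k) (fE_anti k) (k - 1)
  have hξ : ∀ i, ξ.rowLen i = fX k i := rowLen_ofAnti _ _ _ (by unfold fX; omega)
  have hη : ∀ i, η.rowLen i = fE k i := rowLen_ofAnti _ _ _ (by simp [fE])
  have hcard : ξ.card + η.card = n := by
    rw [card_eq_sum ξ (k - 1) (by rw [hξ]; unfold fX; omega),
      card_eq_sum η (k - 1) (by rw [hη]; simp [fE])]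
    simp only [hξ, hη]
    have h1 := sumX k (k - 1) (by omega)
    have h2 := sumE k (k - 1) (by omega)
    obtain ⟨l, rfl⟩ : ∃ l, k = l + 1 := ⟨k - 1, by omega⟩
    rw [show l + 1 - 1 = l by omega] at *
    nlinarith
  refine ⟨⟨(ξ, η), hcard⟩, OO k, ⟨(ξ, η), hcard⟩, (solv_OO hk hn).1, ?_, fun t => le_rfl,
    ⟨?_, ?_⟩, ?_, rfl⟩
  · intro t
    simp only [rowLen_OO, fun i => rowLen_DD (k := k) i hk]
    have hle : ∀ t, ∑ i ∈ Finset.range t, fD k i ≤ ∑ i ∈ Finset.range t, fO k i ∧
        (t % 2 = 0 → 0 < t → t < 2 * k → ∑ i ∈ Finset.range t, fD k i + 1 ≤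
          ∑ i ∈ Finset.range t, fO k i) := by
      intro t
      induction t with
      | zero => simp
      | succ t ih =>
        rw [Finset.sum_range_succ, Finset.sum_range_succ]
        obtain ⟨i1, i2⟩ := ih
        by_cases ht : t + 1 < 2 * k
        · by_cases h2 : t % 2 = 0
          · by_cases h0 : t = 0
            · subst h0
              simp [fD, fO]
              split_ifs <;> omega
            · have h3 := i2 h2 (by omega) (by omega)
              have h4 : fD k t ≤ fO k t + 1 := by
                unfold fD fO
                rw [if_neg h0, if_pos (by omega)]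
                omega
              constructor
              · omega
              · intro h5; omega
          · have h4 : fD k t + 1 ≤ fO k t := by
              unfold fD fO
              rw [if_neg (by omega), if_pos (by omega)]
              omega
            constructor
            · omega
            · intro _ _ _; omega
        · have h4 : fD k t = 0 := by
            unfold fD
            rw [if_neg (by omega)]
            omega
          constructor
          · omega
          · intro _ _ h; omega
    exact (hle t).1
  · intro x
    change x ∈ beta (n + 1) ξ ↔ _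
    rw [mem_beta, mem_beta]
    simp only [hξ, rowLen_OO]
    constructor
    · rintro ⟨t, ht, rfl⟩
      by_cases h : t < k
      · refine ⟨2 * t, by omega, ?_⟩
        unfold fX fO
        rw [if_pos (by omega)]
        omega
      · refine ⟨2 * n - (2 * (n - t) + 1), by omega, ?_⟩
        unfold fX fO
        rw [if_neg (by omega)]
        omega
    · rintro ⟨t, ht, hx⟩
      unfold fO at hx
      split_ifs at hx with h
      · refine ⟨t / 2, by omega, ?_⟩
        unfold fX
        omega
      · refine ⟨n - x, by omega, ?_⟩
        unfold fX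
        omega
  · intro x
    change x ∈ beta n η ↔ _
    rw [mem_beta, mem_beta]
    simp only [hη, rowLen_OO]
    constructor
    · rintro ⟨t, ht, rfl⟩
      by_cases h : t < k - 1
      · refine ⟨2 * t + 1, by omega, ?_⟩
        unfold fE fO
        rw [if_pos (by omega), if_pos (by omega)]
        omega
      · refine ⟨2 * n - (2 * (n - 1 - t)), by omega, ?_⟩
        unfold fE fO
        rw [if_neg (by omega), if_neg (by omega)]
        omega
    · rintro ⟨t, ht, hx⟩
      unfold fO at hx
      split_ifs at hx with h
      · refine ⟨t / 2, by omega, ?_⟩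
        unfold fE
        rw [if_pos (by omega)]
        omega
      · refine ⟨n - 1 - x, by omega, ?_⟩
        unfold fE
        rw [if_neg (by omega)]
        omega
  · intro i hi
    change ξ.rowLen (n - i) + i ≤ η.rowLen (n - 1 - i) + i ∧
      η.rowLen (n - 1 - i) + i ≤ ξ.rowLen (n - (i + 1)) + (i + 1)
    rw [hξ, hη, hξ]
    unfold fX fE
    split_ifs <;> omega

/-! ### From pairs to the direct sum -/

theorem component_tensor {n : ℕ} {O D : YoungDiagram} (i j : {p : Bip n // InSigma O D p})
    (w : (DirectSum {p : Bip n // InSigma O D p} fun p => (spe p.1).toSubmodule) ⊗[ℂ]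
      (DirectSum {p : Bip n // InSigma O D p} fun p => (spe p.1).toSubmodule)) [DecidableEq {p : Bip n // InSigma O D p}] :
    (TensorProduct.directSum ℂ ℂ (fun p : {p : Bip n // InSigma O D p} => (spe p.1).toSubmodule)
        (fun p : {p : Bip n // InSigma O D p} => (spe p.1).toSubmodule) w) (i, j) =
      TensorProduct.map (DirectSum.component ℂ _ _ i) (DirectSum.component ℂ _ _ j) w := by
  induction w using TensorProduct.induction_on with
  | zero => simp
  | tmul x y =>
    induction x using DirectSum.induction_on with
    | zero => simp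
    | of i' x =>
      induction y using DirectSum.induction_on with
      | zero => simp
      | of j' y =>
        rw [← DirectSum.lof_eq_of ℂ, ← DirectSum.lof_eq_of ℂ,
          TensorProduct.directSum_lof_tmul_lof, TensorProduct.map_tmul]
        by_cases hi : i' = i
        · subst hi
          by_cases hj : j' = j
          · subst hj
            rw [DirectSum.component.lof_self, DirectSum.component.lof_self,
              DirectSum.lof_apply]
          · have hz := DirectSum.component.of (R := ℂ)
              (M := fun p : {p : Bip n // InSigma O D p} => (spe p.1).toSubmodule) j j' y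
            rw [dif_neg hj] at hz
            rw [hz, TensorProduct.tmul_zero]
            rw [DirectSum.lof_eq_of, DirectSum.of_eq_of_ne]
            intro h
            exact hj (Prod.ext_iff.1 h).2.symm
        · have hz := DirectSum.component.of (R := ℂ)
              (M := fun p : {p : Bip n // InSigma O D p} => (spe p.1).toSubmodule) i i' x
          rw [dif_neg hi] at hz
          rw [hz, TensorProduct.zero_tmul]
          rw [DirectSum.lof_eq_of, DirectSum.of_eq_of_ne]
          intro h
          exact hi (Prod.ext_iff.1 h).1.symm
      | add y y' hy hy' =>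
        rw [TensorProduct.tmul_add, map_add, map_add, DirectSum.add_apply, hy, hy']
    | add x x' hx hx' =>
      rw [TensorProduct.add_tmul, map_add, map_add, DirectSum.add_apply, hx, hx']
  | add x y hx hy => rw [map_add, map_add, DirectSum.add_apply, hx, hy]

/-- `Σ` on the direct sum itself -/
def SigD (n : ℕ) (O D : YoungDiagram) : Representation ℂ (W n)
    (DirectSum {p : Bip n // InSigma O D p} fun p => (spe p.1).toSubmodule) :=
  Representation.directSum fun p : {p : Bip n // InSigma O D p} => (spe p.1).toRepresentation

theorem semi_zero {n : ℕ} {O D : YoungDiagram}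
    (hns : ∀ p q : Bip n, InSigma O D p → InSigma O D q → q.1.1 = p.1.2 → q.1.2 = p.1.1 → False)
    (w : (DirectSum {p : Bip n // InSigma O D p} fun p => (spe p.1).toSubmodule) ⊗[ℂ]
      (DirectSum {p : Bip n // InSigma O D p} fun p => (spe p.1).toSubmodule))
    (hw : ∀ g : W n, ((SigD n O D).tprod (SigD n O D)) g w = (∏ i, ((g.left i : ℤ) : ℂ)) • w) :
    w = 0 := by
  classical
  apply (TensorProduct.directSum ℂ ℂ
    (fun p : {p : Bip n // InSigma O D p} => (spe p.1).toSubmodule)
    (fun p : {p : Bip n // InSigma O D p} => (spe p.1).toSubmodule)).injective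
  rw [map_zero]
  apply DirectSum.ext_component ℂ
  rintro ⟨i, j⟩
  rw [map_zero]
  change (TensorProduct.directSum ℂ ℂ
    (fun p : {p : Bip n // InSigma O D p} => (spe p.1).toSubmodule)
    (fun p : {p : Bip n // InSigma O D p} => (spe p.1).toSubmodule) w) (i, j) = 0
  rw [component_tensor]
  by_contra hne
  have hsemi : ∀ g : W n, ((spe i.1).toRepresentation.tprod (spe j.1).toRepresentation) g
      (TensorProduct.map (DirectSum.component ℂ _ _ i) (DirectSum.component ℂ _ _ j) w) =
      (∏ i, ((g.left i : ℤ) : ℂ)) •
        TensorProduct.map (DirectSum.component ℂ _ _ i) (DirectSum.component ℂ _ _ j) w := by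
    intro g
    rw [← map_smul, ← hw g]
    clear hw hne
    induction w using TensorProduct.induction_on with
    | zero => simp
    | tmul x y => rfl
    | add x y hx hy => rw [map_add, map_add, map_add, map_add, hx, hy]
  have key := swap_of_semi i.1 j.1 _ hsemi hne
  exact hns i.1 j.1 i.2 j.2 key.1 key.2

theorem delta_irreducible (n : ℕ) : (delta n).IsIrreducible := by
  have hnt : Nontrivial (Subrepresentation (delta n)) := by
    refine ⟨⊥, ⊤, ?_⟩
    intro h
    have h1 : (1 : ℂ) ∈ (⊤ : Subrepresentation (delta n)).toSubmodule := Submodule.mem_top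
    rw [← h] at h1
    exact one_ne_zero ((Submodule.mem_bot ℂ).1 h1)
  refine { hnt with eq_bot_or_eq_top := fun U => ?_ }
  rcases eq_bot_or_eq_top U.toSubmodule with h | h
  · left
    exact Subrepresentation.toSubmodule_injective h
  · right
    exact Subrepresentation.toSubmodule_injective h

/-- The final statement -/
theorem final (k n : ℕ) (h2 : 2 ≤ k) (hk : Even k) (hn : n + 1 = k ^ 2) :
    (∃ O D, IsMinSolvable n O ∧ IsDual n O D ∧ ∃ p : Bip n, InSigma O D p) ∧
    (delta n).IsIrreducible ∧
    ∀ O D, IsMinSolvable n O → IsDual n O D →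
      ¬ Contains ((Sig n O D).tprod (Sig n O D)) (delta n) := by
  refine ⟨⟨OO k, DD k, minSolvable_OO h2 hn, dual_OO h2 hn, exists_inSigma h2 hn⟩,
    delta_irreducible n, ?_⟩
  rintro O D hO hD ⟨f, hf⟩
  apply hf
  obtain rfl := minSolvable_unique hO (minSolvable_OO h2 hn)
  obtain rfl := dual_unique hD (dual_OO h2 hn)
  have hkn : k ≤ n := by nlinarith
  have h0 : f.toLinearMap 1 = 0 := by
    refine semi_zero (O := OO k) (D := DD k) ?_ (f.toLinearMap 1) ?_
    · intro p q hp hq e1 e2
      exact no_swap (M := n + 1 - k) h2 hk (by omega) (by omega) p q hp hq e1 e2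
    · intro g
      have h1 := congrArg (fun l => l (1 : ℂ)) (f.isIntertwining' g)
      simp only [LinearMap.comp_apply] at h1
      refine Eq.trans h1.symm ?_
      exact map_smul f.toLinearMap (∏ i, ((g.left i : ℤ) : ℂ)) (1 : ℂ)
  apply Representation.IntertwiningMap.ext
  apply LinearMap.ext_ring
  rw [h0]
  rfl

end

end Pool.Agent.Saxl
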